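import Mathlib
import Pool.Agent.TH278.DX.Defs
set_option autoImplicit false

open scoped TensorProduct

namespace Pool.Agent.TH124.J4465

open Pool.Agent.TH278.DX

section tensor

variable {E F : Type} [NormedAddCommGroup E] [InnerProductSpace ℂ E]
  [NormedAddCommGroup F] [InnerProductSpace ℂ F]

/-- Every tensor is a sum with orthonormal second components. -/
lemma exists_orth (z : E ⊗[ℂ] F) : ∃ (k : ℕ) (e : Fin k → F) (x : Fin k → E),
    Orthonormal ℂ e ∧ z = ∑ i, x i ⊗ₜ[ℂ] e i := by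
  classical
  obtain ⟨S, hS⟩ := TensorProduct.exists_finset z
  set W : Submodule ℂ F := Submodule.span ℂ ((S.image Prod.snd : Finset F) : Set F) with hW
  have hfin : FiniteDimensional ℂ W := FiniteDimensional.span_finset ℂ _
  set b := stdOrthonormalBasis ℂ W with hb
  have hmem : ∀ p ∈ S, p.2 ∈ W := fun p hp =>
    Submodule.subset_span (Finset.mem_coe.2 (Finset.mem_image_of_mem _ hp))
  have hexp : ∀ p ∈ S, ∑ i, inner ℂ (b i : F) p.2 • (b i : F) = p.2 := by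
    intro p hp
    have h := b.sum_repr' ⟨p.2, hmem p hp⟩
    have h2 := congrArg (fun w : W => (w : F)) h
    simpa using h2
  refine ⟨_, fun i => (b i : F), fun i => ∑ p ∈ S, inner ℂ (b i : F) p.2 • p.1, ?_, ?_⟩
  · have h := b.orthonormal
    exact h.comp_linearIsometry W.subtypeₗᵢ
  · rw [hS]
    calc ∑ p ∈ S, p.1 ⊗ₜ[ℂ] p.2 = ∑ p ∈ S, ∑ i, inner ℂ (b i : F) p.2 • (p.1 ⊗ₜ[ℂ] (b i : F)) := by
          refine Finset.sum_congr rfl fun p hp => ?_
          conv_lhs => rw [← hexp p hp]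
          rw [TensorProduct.tmul_sum]
          simp only [TensorProduct.tmul_smul]
      _ = ∑ i, ∑ p ∈ S, inner ℂ (b i : F) p.2 • (p.1 ⊗ₜ[ℂ] (b i : F)) := Finset.sum_comm
      _ = _ := by
          refine Finset.sum_congr rfl fun i _ => ?_
          rw [TensorProduct.sum_tmul]
          simp only [TensorProduct.smul_tmul']

lemma norm_sq_sum {k : ℕ} {e : Fin k → F} (he : Orthonormal ℂ e) (x : Fin k → E) :
    ‖∑ i, x i ⊗ₜ[ℂ] e i‖ ^ 2 = ∑ i, ‖x i‖ ^ 2 := by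
  classical
  rw [orthonormal_iff_ite] at he
  rw [← inner_self_eq_norm_sq (𝕜 := ℂ), sum_inner]
  simp only [inner_sum, TensorProduct.inner_tmul, he]
  simp only [mul_ite, mul_one, mul_zero, Finset.sum_ite_eq, Finset.mem_univ, if_true, map_sum]
  refine Finset.sum_congr rfl fun i _ => ?_
  exact inner_self_eq_norm_sq (𝕜 := ℂ) (x i)

lemma map_left_le (S : E →L[ℂ] E) (z : E ⊗[ℂ] F) :
    ‖TensorProduct.map (S : E →ₗ[ℂ] E) LinearMap.id z‖ ≤ ‖S‖ * ‖z‖ := by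
  obtain ⟨k, e, x, he, rfl⟩ := exists_orth z
  have h1 : TensorProduct.map (S : E →ₗ[ℂ] E) LinearMap.id (∑ i, x i ⊗ₜ[ℂ] e i) =
      ∑ i, (S (x i)) ⊗ₜ[ℂ] e i := by
    rw [map_sum]
    rfl
  rw [h1]
  apply le_of_sq_le_sq _ (by positivity)
  rw [mul_pow, norm_sq_sum he, norm_sq_sum he, Finset.mul_sum]
  refine Finset.sum_le_sum fun i _ => ?_
  rw [← mul_pow]
  exact pow_le_pow_left₀ (norm_nonneg _) (S.le_opNorm _) 2

lemma map_right_le (T : F →L[ℂ] F) (z : E ⊗[ℂ] F) :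
    ‖TensorProduct.map (LinearMap.id : E →ₗ[ℂ] E) (T : F →ₗ[ℂ] F) z‖ ≤ ‖T‖ * ‖z‖ := by
  have h := map_left_le (F := E) T (TensorProduct.comm ℂ E F z)
  rw [TensorProduct.norm_comm] at h
  refine le_trans (le_of_eq ?_) h
  rw [← TensorProduct.norm_comm]
  congr 1
  clear h
  induction z using TensorProduct.induction_on with
  | zero => simp
  | tmul x y => simp
  | add x y hx hy => simp only [map_add, hx, hy]

lemma map_le (S : E →L[ℂ] E) (T : F →L[ℂ] F) (z : E ⊗[ℂ] F) :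
    ‖TensorProduct.map (S : E →ₗ[ℂ] E) (T : F →ₗ[ℂ] F) z‖ ≤ ‖S‖ * ‖T‖ * ‖z‖ := by
  have h : TensorProduct.map (S : E →ₗ[ℂ] E) (T : F →ₗ[ℂ] F) z =
      TensorProduct.map (S : E →ₗ[ℂ] E) LinearMap.id
        (TensorProduct.map (LinearMap.id : E →ₗ[ℂ] E) (T : F →ₗ[ℂ] F) z) := by
    induction z using TensorProduct.induction_on with
    | zero => simp
    | tmul x y => simp
    | add x y hx hy => simp only [map_add, hx, hy]
  rw [h, mul_assoc]
  exact (map_left_le S _).trans (mul_le_mul_of_nonneg_left (map_right_le T z) (norm_nonneg _))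

end tensor

section model

variable {E F L : Type} [NormedAddCommGroup E] [InnerProductSpace ℂ E]
  [NormedAddCommGroup F] [InnerProductSpace ℂ F] [NormedAddCommGroup L] [InnerProductSpace ℂ L]
  [CompleteSpace L] (τ : E →ₗ[ℂ] F →ₗ[ℂ] L)

/-- The embedding of the algebraic tensor product. -/
noncomputable def emb
    (hτ : ∀ x y x' y', inner ℂ (τ x y) (τ x' y') = inner ℂ x x' * inner ℂ y y') :
    E ⊗[ℂ] F →ₗᵢ[ℂ] L :=
  LinearMap.isometryOfInner (TensorProduct.lift τ) (by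
    intro z w
    induction z using TensorProduct.induction_on with
    | zero => simp
    | tmul x y =>
      induction w using TensorProduct.induction_on with
      | zero => simp
      | tmul x' y' => simp [hτ]
      | add w w' hw hw' => rw [map_add, inner_add_right, inner_add_right, hw, hw']
    | add z z' hz hz' => rw [map_add, inner_add_left, inner_add_left, hz, hz'])

variable {τ}

omit [CompleteSpace L] in
lemma emb_tmul (hτ : ∀ x y x' y', inner ℂ (τ x y) (τ x' y') = inner ℂ x x' * inner ℂ y y')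
    (x : E) (y : F) : emb τ hτ (x ⊗ₜ y) = τ x y := rfl

lemma emb_dense (hτ : ∀ x y x' y', inner ℂ (τ x y) (τ x' y') = inner ℂ x x' * inner ℂ y y')
    (hd : Dense (Submodule.span ℂ {z : L | ∃ x y, z = τ x y} : Set L)) :
    DenseRange (emb τ hτ) := by
  have h : Submodule.span ℂ {z : L | ∃ x y, z = τ x y} ≤
      LinearMap.range (emb τ hτ).toLinearMap := by
    rw [Submodule.span_le]
    rintro z ⟨x, y, rfl⟩
    exact ⟨x ⊗ₜ y, emb_tmul hτ x y⟩
  exact hd.mono fun z hz => h hz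

lemma exists_op (hτ : ∀ x y x' y', inner ℂ (τ x y) (τ x' y') = inner ℂ x x' * inner ℂ y y')
    (hd : Dense (Submodule.span ℂ {z : L | ∃ x y, z = τ x y} : Set L))
    (S : E →L[ℂ] E) (T : F →L[ℂ] F) :
    ∃ U : L →L[ℂ] L, (∀ x y, U (τ x y) = τ (S x) (T y)) ∧ ‖U‖ ≤ ‖S‖ * ‖T‖ := by
  set j : E ⊗[ℂ] F →L[ℂ] L := (emb τ hτ).toContinuousLinearMap with hj
  set A : E ⊗[ℂ] F →L[ℂ] L := LinearMap.mkContinuous
    ((emb τ hτ).toLinearMap ∘ₗ TensorProduct.map (S : E →ₗ[ℂ] E) (T : F →ₗ[ℂ] F)) (‖S‖ * ‖T‖)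
    (fun z => by
      rw [LinearMap.comp_apply]
      have : ‖(emb τ hτ).toLinearMap (TensorProduct.map (S : E →ₗ[ℂ] E) (T : F →ₗ[ℂ] F) z)‖ =
        ‖TensorProduct.map (S : E →ₗ[ℂ] E) (T : F →ₗ[ℂ] F) z‖ := (emb τ hτ).norm_map _
      rw [this]
      exact map_le S T z) with hA
  have hdj : DenseRange j := emb_dense hτ hd
  have hbd : ∀ z, ‖z‖ ≤ ((1 : NNReal) : ℝ) * ‖j z‖ := by
    intro z
    rw [NNReal.coe_one, one_mul]
    exact (((emb τ hτ).norm_map z).symm).le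
  have hind : IsUniformInducing j := (emb τ hτ).isometry.isUniformInducing
  refine ⟨A.extend j, ?_, ?_⟩
  · intro x y
    have h := ContinuousLinearMap.extend_eq A hdj hind (x ⊗ₜ y)
    exact h
  · have h := ContinuousLinearMap.opNorm_extend_le A hdj hbd
    rw [NNReal.coe_one, one_mul] at h
    refine h.trans ?_
    exact LinearMap.mkContinuous_norm_le _ (by positivity) _

end model

theorem sim_tensor {G K E F L : Type} [Group G] [Group K] [NormedAddCommGroup E]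
    [InnerProductSpace ℂ E] [CompleteSpace E] [NormedAddCommGroup F] [InnerProductSpace ℂ F]
    [CompleteSpace F] [NormedAddCommGroup L] [InnerProductSpace ℂ L] [CompleteSpace L]
    (π : G →* (E →L[ℂ] E)ˣ) (ρ : K →* (F →L[ℂ] F)ˣ) (Ω : G × K →* (L →L[ℂ] L)ˣ)
    (τ : E →ₗ[ℂ] F →ₗ[ℂ] L)
    (hτ : ∀ x y x' y', inner ℂ (τ x y) (τ x' y') = inner ℂ x x' * inner ℂ y y')
    (hd : Dense (Submodule.span ℂ {z : L | ∃ x y, z = τ x y} : Set L))
    (hΩ : ∀ (p : G × K) (x : E) (y : F), ((Ω p : (L →L[ℂ] L)ˣ) : L →L[ℂ] L) (τ x y) =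
        τ (((π p.1 : (E →L[ℂ] E)ˣ) : E →L[ℂ] E) x) (((ρ p.2 : (F →L[ℂ] F)ˣ) : F →L[ℂ] F) y))
    (κ₁ κ₂ : ℝ) (h1 : Sim π κ₁) (h2 : Sim ρ κ₂) : Sim Ω (κ₁ * κ₂) := by
  obtain ⟨S, hS, hSu⟩ := h1
  obtain ⟨T, hT, hTu⟩ := h2
  choose op hop hopn using exists_op hτ hd
  have hext : ∀ U V : L →L[ℂ] L, (∀ x y, U (τ x y) = V (τ x y)) → U = V := fun U V h =>
    ContinuousLinearMap.ext_on hd (by rintro z ⟨x, y, rfl⟩; exact h x y)
  have hmul : ∀ (A A' : E →L[ℂ] E) (B B' : F →L[ℂ] F),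
      op A B * op A' B' = op (A * A') (B * B') := by
    intro A A' B B'
    apply hext
    intro x y
    rw [ContinuousLinearMap.mul_apply, hop, hop, hop]
    rfl
  have hone : op 1 1 = 1 := by
    apply hext
    intro x y
    rw [hop]
    rfl
  have hstar : ∀ (A : E →L[ℂ] E) (B : F →L[ℂ] F), star (op A B) = op (star A) (star B) := by
    intro A B
    apply hext
    intro x y
    have hd2 : ∀ u v : L, (∀ x' y', inner ℂ (τ x' y') u = inner ℂ (τ x' y') v) → u = v := by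
      intro u v huv
      refine hd.eq_of_inner_right ℂ fun w hw => ?_
      have hw' : w ∈ Submodule.span ℂ {z : L | ∃ x y, z = τ x y} := hw
      induction hw' using Submodule.span_induction with
      | mem z hz =>
        obtain ⟨x', y', rfl⟩ := hz
        exact huv x' y'
      | zero => simp
      | add a b ha hb h1 h2 => rw [inner_add_left, inner_add_left, h1 ha, h2 hb]
      | smul c a ha h1 => rw [inner_smul_left, inner_smul_left, h1 ha]
    apply hd2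
    intro x' y'
    rw [ContinuousLinearMap.star_eq_adjoint, ContinuousLinearMap.adjoint_inner_right, hop, hop,
      hτ, hτ, ContinuousLinearMap.star_eq_adjoint, ContinuousLinearMap.star_eq_adjoint,
      ContinuousLinearMap.adjoint_inner_right, ContinuousLinearMap.adjoint_inner_right]
  have huni : ∀ (A : E →L[ℂ] E) (B : F →L[ℂ] F), A ∈ unitary (E →L[ℂ] E) →
      B ∈ unitary (F →L[ℂ] F) → op A B ∈ unitary (L →L[ℂ] L) := by
    intro A B hA hB
    rw [Unitary.mem_iff] at hA hB ⊢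
    rw [hstar, hmul, hmul, hA.1, hA.2, hB.1, hB.2, hone]
    exact ⟨rfl, rfl⟩
  let U : (L →L[ℂ] L)ˣ := ⟨op (S : E →L[ℂ] E) (T : F →L[ℂ] F),
    op ((S⁻¹ : (E →L[ℂ] E)ˣ) : E →L[ℂ] E) ((T⁻¹ : (F →L[ℂ] F)ˣ) : F →L[ℂ] F),
    by rw [hmul, Units.mul_inv, Units.mul_inv, hone],
    by rw [hmul, Units.inv_mul, Units.inv_mul, hone]⟩
  refine ⟨U, ?_, ?_⟩
  · have n1 : ‖((U : (L →L[ℂ] L)ˣ) : L →L[ℂ] L)‖ ≤ ‖(S : E →L[ℂ] E)‖ * ‖(T : F →L[ℂ] F)‖ :=
      hopn _ _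
    have n2 : ‖((U⁻¹ : (L →L[ℂ] L)ˣ) : L →L[ℂ] L)‖ ≤
        ‖((S⁻¹ : (E →L[ℂ] E)ˣ) : E →L[ℂ] E)‖ * ‖((T⁻¹ : (F →L[ℂ] F)ˣ) : F →L[ℂ] F)‖ :=
      hopn _ _
    have hκ₁ : 0 ≤ κ₁ := le_trans (by positivity) hS
    calc _ ≤ (‖(S : E →L[ℂ] E)‖ * ‖(T : F →L[ℂ] F)‖) *
          (‖((S⁻¹ : (E →L[ℂ] E)ˣ) : E →L[ℂ] E)‖ * ‖((T⁻¹ : (F →L[ℂ] F)ˣ) : F →L[ℂ] F)‖) :=
          mul_le_mul n1 n2 (norm_nonneg _) (by positivity)
      _ = (‖(S : E →L[ℂ] E)‖ * ‖((S⁻¹ : (E →L[ℂ] E)ˣ) : E →L[ℂ] E)‖) *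
          (‖(T : F →L[ℂ] F)‖ * ‖((T⁻¹ : (F →L[ℂ] F)ˣ) : F →L[ℂ] F)‖) := by ring
      _ ≤ κ₁ * κ₂ := mul_le_mul hS hT (by positivity) hκ₁
  · intro p
    have h3 : ((Ω p : (L →L[ℂ] L)ˣ) : L →L[ℂ] L) =
        op ((π p.1 : (E →L[ℂ] E)ˣ) : E →L[ℂ] E) ((ρ p.2 : (F →L[ℂ] F)ˣ) : F →L[ℂ] F) := by
      apply hext
      intro x y
      rw [hΩ, hop]
    have h4 : ((U * Ω p * U⁻¹ : (L →L[ℂ] L)ˣ) : L →L[ℂ] L) =
        op ((S * π p.1 * S⁻¹ : (E →L[ℂ] E)ˣ) : E →L[ℂ] E)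
          ((T * ρ p.2 * T⁻¹ : (F →L[ℂ] F)ˣ) : F →L[ℂ] F) := by
      rw [Units.val_mul, Units.val_mul, h3]
      change op (S : E →L[ℂ] E) (T : F →L[ℂ] F) * _ *
        op ((S⁻¹ : (E →L[ℂ] E)ˣ) : E →L[ℂ] E) ((T⁻¹ : (F →L[ℂ] F)ˣ) : F →L[ℂ] F) = _
      rw [hmul, hmul]
      simp only [Units.val_mul]
    rw [h4]
    exact huni _ _ (hSu p.1) (hTu p.2)

end Pool.Agent.TH124.J4465
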