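import Mathlib
import Pool.Agent.TH881.RK.DefsH2
import Pool.Agent.TH881.RG.LTD

set_option autoImplicit false

namespace Pool.Agent.TH124.J5139

open Finset Filter Topology
open Pool.Agent.TH881
open Pool.Agent.TH881.RG
open Pool.Agent.TH881.RQ
open Pool.Agent.TH881.RK
open Pool.Agent.H373R2.T7

/-! ### counting modulo `3` -/

lemma card3 (c : ZMod 3) : Nat.card {y : ZMod 3 // y + c ≠ 0} = 2 := by
  rw [Nat.card_eq_fintype_card]
  revert c
  decide

lemma cardX (m : ℕ) (c : ZMod 3) : Nat.card {x : Fin m → ZMod 3 // ∀ j, x j + c ≠ 0} = 2 ^ m := by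
  rw [Nat.card_congr (Equiv.subtypePiEquivPi (p := fun (_ : Fin m) (y : ZMod 3) => y + c ≠ 0)),
    Nat.card_fun, card3, Nat.card_eq_fintype_card, Fintype.card_fin]

lemma cardX1 (m : ℕ) :
    Nat.card {x : Fin m → ZMod 3 // ∃ y : ZMod 3, y ≠ 0 ∧ ∀ j, x j + y ≠ 0} + 1 = 2 ^ (m + 1) := by
  have hc : ∀ (P : (Fin m → ZMod 3) → Prop) [DecidablePred P],
      Nat.card {x // P x} = (univ.filter P).card := by
    intro P _
    rw [Nat.card_eq_fintype_card, Fintype.card_subtype]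
  have h1 := cardX m 1
  have h2 := cardX m 2
  rw [hc] at h1 h2 ⊢
  have e1 : (univ.filter fun x : Fin m → ZMod 3 => ∃ y : ZMod 3, y ≠ 0 ∧ ∀ j, x j + y ≠ 0) =
      (univ.filter fun x : Fin m → ZMod 3 => ∀ j, x j + 1 ≠ 0) ∪
        (univ.filter fun x : Fin m → ZMod 3 => ∀ j, x j + 2 ≠ 0) := by
    ext x
    simp only [mem_filter, mem_univ, true_and, mem_union]
    constructor
    · rintro ⟨y, hy, h⟩
      rcases three_cases y with rfl | rfl | rfl
      · exact absurd rfl hy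
      · exact Or.inl h
      · exact Or.inr h
    · rintro (h | h)
      · exact ⟨1, by decide, h⟩
      · exact ⟨2, by decide, h⟩
  have e2 : (univ.filter fun x : Fin m → ZMod 3 => ∀ j, x j + 1 ≠ 0) ∩
        (univ.filter fun x : Fin m → ZMod 3 => ∀ j, x j + 2 ≠ 0) = {0} := by
    ext x
    simp only [mem_filter, mem_univ, true_and, mem_inter, mem_singleton]
    constructor
    · rintro ⟨h3, h4⟩
      funext j
      have h5 := h3 j
      have h6 := h4 j
      rcases three_cases (x j) with h | h | h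
      · exact h
      · rw [h] at h6
        exact absurd (by decide) h6
      · rw [h] at h5
        exact absurd (by decide) h5
    · rintro rfl
      refine ⟨fun j => ?_, fun j => ?_⟩
      · rw [Pi.zero_apply]
        decide
      · rw [Pi.zero_apply]
        decide
  have h3 := card_union_add_card_inter (univ.filter fun x : Fin m → ZMod 3 => ∀ j, x j + 1 ≠ 0)
    (univ.filter fun x : Fin m → ZMod 3 => ∀ j, x j + 2 ≠ 0)
  rw [e1]
  rw [e2, card_singleton, h1, h2] at h3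
  rw [h3]
  ring

/-! ### the splitting -/

section split
variable {w M : ℕ} (E : ZMod (Wp w) ≃+* ZMod 3 × ZMod M) (m : ℕ)

/-- the splitting of vectors -/
def Phi : (Fin m → ZMod (Wp w)) ≃ (Fin m → ZMod 3) × (Fin m → ZMod M) :=
  (Equiv.arrowCongr (Equiv.refl (Fin m)) E.toEquiv).trans
    (Equiv.arrowProdEquivProdArrow (Fin m) (fun _ => ZMod 3) (fun _ => ZMod M))

lemma Phi_fst (t : Fin m → ZMod (Wp w)) (j : Fin m) : (Phi E m t).1 j = (E (t j)).1 := rfl

lemma Phi_snd (t : Fin m → ZMod (Wp w)) (j : Fin m) : (Phi E m t).2 j = (E (t j)).2 := rfl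

/-- the condition modulo `M` -/
def GM (s : Fin m → ZMod M) : Prop := ∃ b : ZMod M, IsUnit b ∧ ∀ j, IsUnit (s j + b)

lemma gk_iff (t : Fin m → ZMod (Wp w)) (a : ZMod (Wp w)) :
    gk t a ↔ (∀ j, (Phi E m t).1 j + (E a).1 ≠ 0) ∧ ∀ j, IsUnit ((Phi E m t).2 j + (E a).2) := by
  unfold gk
  constructor
  · intro h
    refine ⟨fun j => ?_, fun j => ?_⟩
    · have := ((unit_iff E _).1 (h j)).1
      rw [map_add] at this
      exact this
    · have := ((unit_iff E _).1 (h j)).2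
      rw [map_add] at this
      exact this
  · rintro ⟨h1, h2⟩ j
    rw [unit_iff E, map_add]
    exact ⟨h1 j, h2 j⟩

lemma mem_AA {a : ZMod (Wp w)} : a ∈ AA true w ↔ IsUnit a := by
  classical
  unfold AA
  rw [mem_filter]
  exact ⟨fun h => h.2 rfl, fun h => ⟨mem_univ _, fun _ => h⟩⟩

lemma okk_iff (t : Fin m → ZMod (Wp w)) :
    t ∈ okk true m w ↔ (∃ y : ZMod 3, y ≠ 0 ∧ ∀ j, (Phi E m t).1 j + y ≠ 0) ∧
      GM m (Phi E m t).2 := by
  classical
  have h1 : t ∈ okk true m w ↔ ∃ a ∈ AA true w, gk t a := by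
    rw [mem_okk]
    unfold wk
    have hA := Pool.Agent.TH111.J3812.AA_pos true w
    rw [div_ne_zero_iff]
    constructor
    · rintro ⟨h, -⟩
      have h2 : ((AA true w).filter (fun a => gk t a)).card ≠ 0 := by exact_mod_cast h
      obtain ⟨a, ha⟩ := card_ne_zero.1 h2
      rw [mem_filter] at ha
      exact ⟨a, ha.1, ha.2⟩
    · rintro ⟨a, ha, hg⟩
      refine ⟨?_, hA.ne'⟩
      have h2 : ((AA true w).filter (fun a => gk t a)).card ≠ 0 :=
        card_ne_zero.2 ⟨a, mem_filter.2 ⟨ha, hg⟩⟩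
      exact_mod_cast h2
  rw [h1]
  constructor
  · rintro ⟨a, ha, hg⟩
    rw [mem_AA, unit_iff E] at ha
    rw [gk_iff E] at hg
    exact ⟨⟨_, ha.1, hg.1⟩, ⟨_, ha.2, hg.2⟩⟩
  · rintro ⟨⟨y, hy, h2⟩, ⟨b, hb, h3⟩⟩
    refine ⟨E.symm (y, b), ?_, ?_⟩
    · rw [mem_AA, unit_iff E, RingEquiv.apply_symm_apply]
      exact ⟨hy, hb⟩
    · rw [gk_iff E, RingEquiv.apply_symm_apply]
      exact ⟨h2, h3⟩

open Classical in
/-- the units which are `1` modulo `3` -/
noncomputable def BB : Finset (ZMod (Wp w)) := (AA true w).filter fun a => (E a).1 = 1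

lemma mem_BB {a : ZMod (Wp w)} : a ∈ BB E ↔ IsUnit a ∧ (E a).1 = 1 := by
  classical
  unfold BB
  rw [mem_filter, mem_AA]

lemma BB_sub : BB E ⊆ AA true w := by
  intro a ha
  rw [mem_BB] at ha
  rw [mem_AA]
  exact ha.1

lemma BB_card : (AA true w).card = 2 * (BB E).card := by
  classical
  have hneg : ∀ x : ZMod (Wp w), (E (-x)).1 = -(E x).1 := by
    intro x
    rw [map_neg]
    rfl
  have h1 := card_filter_add_card_filter_not (s := AA true w) (fun a => (E a).1 = 1)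
  have h2 : ((AA true w).filter fun a => ¬ (E a).1 = 1).card = (BB E).card := by
    apply card_bij (fun a _ => -a)
    · intro a ha
      rw [mem_filter, mem_AA] at ha
      rw [mem_BB]
      refine ⟨ha.1.neg, ?_⟩
      have h3 := ((unit_iff E a).1 ha.1).1
      rw [hneg]
      rcases three_cases (E a).1 with h | h | h
      · exact absurd h h3
      · exact absurd h ha.2
      · rw [h]
        decide
    · intro a _ b _ h
      exact neg_injective h
    · intro b hb
      rw [mem_BB] at hb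
      refine ⟨-b, ?_, neg_neg b⟩
      rw [mem_filter, mem_AA, hneg, hb.2]
      exact ⟨hb.1.neg, by decide⟩
  rw [h2] at h1
  have h3 : ((AA true w).filter fun a => (E a).1 = 1).card = (BB E).card := rfl
  omega

lemma sumk_iff (t : Fin m → ZMod (Wp w)) :
    t ∈ sumk m w (BB E) ↔ (∀ j, (Phi E m t).1 j + 1 ≠ 0) ∧ GM m (Phi E m t).2 := by
  rw [mem_sumk']
  constructor
  · rintro ⟨a, ha, hg⟩
    rw [mem_BB, unit_iff E] at ha
    rw [gk_iff E, ha.2] at hg
    exact ⟨hg.1, ⟨_, ha.1.2, hg.2⟩⟩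
  · rintro ⟨h2, ⟨b, hb, h3⟩⟩
    refine ⟨E.symm (1, b), ?_, ?_⟩
    · rw [mem_BB, unit_iff E, RingEquiv.apply_symm_apply]
      exact ⟨⟨(by decide : (1 : ZMod 3) ≠ 0), hb⟩, rfl⟩
    · rw [gk_iff E, RingEquiv.apply_symm_apply]
      exact ⟨h2, h3⟩

lemma card_split (C : Finset (Fin m → ZMod (Wp w))) (P : (Fin m → ZMod 3) → Prop)
    (h : ∀ t, t ∈ C ↔ P (Phi E m t).1 ∧ GM m (Phi E m t).2) :
    C.card = Nat.card {x // P x} * Nat.card {s : Fin m → ZMod M // GM m s} := by
  rw [← Nat.card_prod, ← Nat.card_congr (Equiv.subtypeProdEquivProd (p := P) (q := GM m)),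
    ← Nat.card_congr (Equiv.subtypeEquiv (p := fun t => t ∈ C) (Phi E m) h),
    Nat.card_eq_fintype_card, Fintype.card_coe]

end split

theorem stHUp_in (m : ℕ) (hm : 1 ≤ m) : StHUp m := by
  obtain ⟨w, hw⟩ : ∃ w, w = m + 3 := ⟨_, rfl⟩
  obtain ⟨M, ⟨E⟩⟩ := exists_split w (by omega)
  have hW : (0 : ℝ) < (Wp w : ℝ) ^ m := by
    have : (0 : ℝ) < Wp w := by exact_mod_cast Wp_pos w
    positivity
  have h1 := card_split E m (okk true m w) (fun x => ∃ y : ZMod 3, y ≠ 0 ∧ ∀ j, x j + y ≠ 0)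
    (okk_iff E m)
  have h2 := card_split E m (sumk m w (BB E)) (fun x => ∀ j, x j + 1 ≠ 0) (sumk_iff E m)
  rw [cardX] at h2
  have h3 := cardX1 m
  unfold StHUp
  have h4 : (1 / 2 : ℝ) * (AA true w).card ≤ (BB E).card := by
    rw [BB_card E]
    push_cast
    linarith
  refine (LFk_le (m := m) (BB_sub E) h4).trans ?_
  rw [← okk_dens true (show m + 1 ≤ w by omega), div_mul_eq_mul_div]
  apply div_le_div_of_nonneg_right _ hW.le
  have h5 : (0 : ℝ) < 2 ^ (m + 1) - 1 := by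
    have : (1 : ℝ) < 2 ^ (m + 1) := one_lt_pow₀ (by norm_num) (by omega)
    linarith
  rw [mul_div_assoc', le_div_iff₀ h5, h1, h2]
  have h6 : (Nat.card {x : Fin m → ZMod 3 // ∃ y : ZMod 3, y ≠ 0 ∧ ∀ j, x j + y ≠ 0} : ℝ) =
      2 ^ (m + 1) - 1 := by
    rw [eq_sub_iff_add_eq]
    exact_mod_cast h3
  rw [Nat.cast_mul, Nat.cast_mul, h6]
  push_cast
  apply le_of_eq
  ring

end Pool.Agent.TH124.J5139

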