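import Pool.Agent.TH451.MB.Stmt

/-! Job MB-PATHSTATIC (project of helper451 on MP_9916e0_co): assembly of the static theorem for
trees with few leaves. -/

namespace Pool.Agent.TH124.MB
open Pool.Agent.TH451.MB Finset

/-- `L ^ 4 ≤ 2 ^ L` for `L ≥ 16`. -/
lemma four_le (L : ℕ) (hL : 16 ≤ L) : L ^ 4 ≤ 2 ^ L := by
  induction L, hL using Nat.le_induction with
  | base => norm_num
  | succ m hm ih =>
    have h1 : (m + 1) ^ 4 ≤ 2 * m ^ 4 := by
      have h2 : 16 * m ^ 3 ≤ m ^ 4 := by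
        calc 16 * m ^ 3 ≤ m * m ^ 3 := Nat.mul_le_mul_right _ hm
          _ = m ^ 4 := by ring
      have h3 : 16 * m ^ 2 ≤ m ^ 3 := by
        calc 16 * m ^ 2 ≤ m * m ^ 2 := Nat.mul_le_mul_right _ hm
          _ = m ^ 3 := by ring
      have h4 : 16 * m ≤ m ^ 2 := by
        calc 16 * m ≤ m * m := Nat.mul_le_mul_right _ hm
          _ = m ^ 2 := by ring
      have h5 : (m + 1) ^ 4 = m ^ 4 + 4 * m ^ 3 + 6 * m ^ 2 + 4 * m + 1 := by ring
      rw [h5]
      omega
    calc (m + 1) ^ 4 ≤ 2 * m ^ 4 := h1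
      _ ≤ 2 * 2 ^ m := Nat.mul_le_mul_left _ ih
      _ = 2 ^ (m + 1) := by ring

/-- the numerical facts -/
lemma numbers (n s : ℕ) (hn : 10 ^ 24 ≤ n) (hs : 1 ≤ s) (hs5 : s ^ 5 ≤ n) :
    10 ^ 12 * s ≤ n ∧ 10 ^ 12 * (s * (Nat.log 2 n)) ≤ n := by
  have hq : 10 ^ 12 ≤ Nat.sqrt n := by
    rw [Nat.le_sqrt]
    exact le_trans (by norm_num) hn
  have hqn : 10 ^ 12 * Nat.sqrt n ≤ n :=
    le_trans (Nat.mul_le_mul_right _ hq) (Nat.sqrt_le n)
  have hs4 : s ^ 4 ≤ n := by
    calc s ^ 4 ≤ s ^ 5 := Nat.pow_le_pow_right hs (by norm_num)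
      _ ≤ n := hs5
  have hsq : s ≤ Nat.sqrt n := by
    rw [Nat.le_sqrt]
    calc s * s = s ^ 2 := by ring
      _ ≤ s ^ 4 := Nat.pow_le_pow_right hs (by norm_num)
      _ ≤ n := hs4
  have hn0 : n ≠ 0 := by
    intro h; rw [h] at hn; norm_num at hn
  have hL : 16 ≤ Nat.log 2 n := by
    apply Nat.le_log_of_pow_le (by norm_num)
    exact le_trans (by norm_num) hn
  have hL4 : (Nat.log 2 n) ^ 4 ≤ n :=
    le_trans (four_le _ hL) (Nat.pow_log_le_self 2 hn0)
  have hsL : s * Nat.log 2 n ≤ Nat.sqrt n := by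
    rw [Nat.le_sqrt]
    have h1 : (s * Nat.log 2 n * (s * Nat.log 2 n)) ^ 2 ≤ n ^ 2 := by
      calc (s * Nat.log 2 n * (s * Nat.log 2 n)) ^ 2 = s ^ 4 * (Nat.log 2 n) ^ 4 := by ring
        _ ≤ n * n := Nat.mul_le_mul hs4 hL4
        _ = n ^ 2 := by ring
    exact le_of_sq_le_sq' h1
  refine ⟨le_trans (Nat.mul_le_mul_left _ hsq) hqn, le_trans (Nat.mul_le_mul_left _ hsL) hqn⟩
where
  le_of_sq_le_sq' {a b : ℕ} (h : a ^ 2 ≤ b ^ 2) : a ≤ b := by
    by_contra hlt
    push Not at hlt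
    have : b ^ 2 < a ^ 2 := Nat.pow_lt_pow_left hlt (by norm_num)
    omega

lemma memf {α : Type} {p : α → Prop} (inst : DecidablePred p) {S : Finset α} {a : α} :
    a ∈ @Finset.filter α p inst S ↔ a ∈ S ∧ p a := mem_filter

section
variable {n : ℕ}

/-- the bad pairs: few common neighbours in `W0` -/
def Bd (G : SimpleGraph (Fin n)) (W0 : Finset (Fin n)) (x y : Fin n) : Prop :=
  80 * (cnb G x y W0).card < W0.card

lemma cnb_comm (G : SimpleGraph (Fin n)) (x y : Fin n) (R : Finset (Fin n)) :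
    cnb G x y R = cnb G y x R := by
  ext z
  rw [mem_cnb, mem_cnb]
  tauto

lemma Bd_symm {G : SimpleGraph (Fin n)} {W0 : Finset (Fin n)} {x y : Fin n}
    (h : Bd G W0 x y) : Bd G W0 y x := by
  unfold Bd at *
  rw [cnb_comm]; exact h

lemma lnb_card (G : SimpleGraph (Fin n)) (x y y' : Fin n) (R : Finset (Fin n)) :
    (lnb G x y y' R).card ≤ (cnb G x y R).card + (cnb G x y' R).card := by
  refine le_trans (card_le_card ?_) (card_union_le _ _)
  intro z hz
  rw [mem_lnb] at hz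
  rw [mem_union, mem_cnb, mem_cnb]
  tauto

lemma Bd_unique {G : SimpleGraph (Fin n)} {W0 : Finset (Fin n)}
    (hp4 : ∀ x y y', x ≠ y → x ≠ y' → y ≠ y' → W0.card ≤ 40 * (lnb G x y y' W0).card)
    {x y y' : Fin n} (hxy : x ≠ y) (hxy' : x ≠ y') (h : Bd G W0 x y) (h' : Bd G W0 x y') :
    y = y' := by
  by_contra hne
  have h1 := hp4 x y y' hxy hxy' hne
  have h2 := lnb_card G x y y' W0
  unfold Bd at h h'
  omega

lemma row_le_one {G : SimpleGraph (Fin n)} {W0 : Finset (Fin n)}
    (hp4 : ∀ x y y', x ≠ y → x ≠ y' → y ≠ y' → W0.card ≤ 40 * (lnb G x y y' W0).card)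
    (B : Finset (Fin n)) (x : Fin n) (hx : x ∉ B) [DecidablePred (fun b => Bd G W0 x b)] :
    (B.filter (fun b => Bd G W0 x b)).card ≤ 1 := by
  rw [card_le_one]
  intro a ha b hb
  rw [mem_filter] at ha hb
  exact Bd_unique hp4 (fun h => hx (by rw [h]; exact ha.1)) (fun h => hx (by rw [h]; exact hb.1))
    ha.2 hb.2

lemma col_le_one {N : ℕ} {G : SimpleGraph (Fin n)} {W0 : Finset (Fin n)}
    (hp4 : ∀ x y y', x ≠ y → x ≠ y' → y ≠ y' → W0.card ≤ 40 * (lnb G x y y' W0).card)
    (x : Fin N → Fin n) (hx : Function.Injective x) (b : Fin n) (hb : ∀ i, x i ≠ b)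
    [DecidablePred (fun i => Bd G W0 (x i) b)] :
    (univ.filter (fun i => Bd G W0 (x i) b)).card ≤ 1 := by
  rw [card_le_one]
  intro i hi j hj
  rw [mem_filter] at hi hj
  exact hx (Bd_unique hp4 (fun h => hb i h.symm) (fun h => hb j h.symm) (Bd_symm hi.2)
    (Bd_symm hj.2))

end

theorem path_static (hE : StEmbed) (hB : StBare) (hBij : StBij) (hR : StRare) (hPH : StPathHall)
    (hPC : StPathClose) : StPathStatic := by
  classical
  obtain ⟨n0, hBij⟩ := hBij
  refine ⟨max n0 (10 ^ 24), ?_⟩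
  intro n hn s hs hs5 T hT hlv hdeg A1 A1' A2 W0 hA1'sub hA1c hA2c hW0c hA1'c h12 h10 h20 G hG
    hp1 hp1' hp4
  have hnn0 : n0 ≤ n := le_trans (le_max_left _ _) hn
  have hnbig : 10 ^ 24 ≤ n := le_trans (le_max_right _ _) hn
  obtain ⟨hnum1, hnum2⟩ := numbers n s hnbig hs hs5
  -- N
  obtain ⟨N, hNdef⟩ : ∃ N, N = n / 400 := ⟨_, rfl⟩
  rw [← hNdef] at hA1c hA2c hW0c hA1'c
  have hN1 : 400 * N ≤ n := by omega
  have hN2 : n < 400 * N + 400 := by omega
  have hNbig : 10 ^ 20 ≤ N := by omega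
  have hN500 : n ≤ 500 * N := by omega
  have hNn : N ≤ n := by omega
  have hs4 : s ^ 4 ≤ n := le_trans (Nat.pow_le_pow_right hs (by norm_num)) hs5
  -- bare paths
  obtain ⟨tup, htup, hadjt, hdeg2⟩ := hB T hT N (by omega) hN1 hlv
  have htup' : ∀ i j : Fin N, ∀ k l : Fin 7, tup i k = tup j l → i = j ∧ k = l := by
    intro i j k l h
    have := @htup (i, k) (j, l) h
    exact Prod.mk.inj this
  -- F
  obtain ⟨F, hF⟩ : ∃ F : Finset (Fin n), ∀ t, t ∈ F ↔
      ¬ ∃ i, ∃ k : Fin 7, 1 ≤ k.val ∧ k.val ≤ 5 ∧ t = tup i k :=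
    ⟨univ.filter (fun t => ¬ ∃ i, ∃ k : Fin 7, 1 ≤ k.val ∧ k.val ≤ 5 ∧ t = tup i k),
      fun t => by rw [mem_filter]; simp⟩
  have hFcard : F.card + 5 * N = n := by
    have h1 : Fᶜ = ((univ : Finset (Fin N)) ×ˢ (univ.filter (fun k : Fin 7 => 1 ≤ k.val ∧
        k.val ≤ 5))).image (fun p : Fin N × Fin 7 => tup p.1 p.2) := by
      ext t
      rw [mem_compl, hF, not_not, mem_image]
      constructor
      · rintro ⟨i, k, h1, h2, h3⟩
        exact ⟨(i, k), by simp [h1, h2], h3.symm⟩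
      · rintro ⟨⟨i, k⟩, h1, h2⟩
        simp only [mem_product, mem_univ, true_and, mem_filter] at h1
        exact ⟨i, k, h1.1, h1.2, h2.symm⟩
    have h2 : Fᶜ.card = N * 5 := by
      rw [h1, card_image_of_injective _ htup, card_product, card_univ, Fintype.card_fin]
      congr 1
    have h3 := card_compl_add_card F
    rw [Fintype.card_fin] at h3
    omega
  have h0F : ∀ i, tup i 0 ∈ F := by
    intro i
    rw [hF]
    rintro ⟨j, k, h1, h2, h3⟩
    have := (htup' _ _ _ _ h3).2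
    rw [← this] at h1
    simp at h1
  have h6F : ∀ i, tup i 6 ∈ F := by
    intro i
    rw [hF]
    rintro ⟨j, k, h1, h2, h3⟩
    have := (htup' _ _ _ _ h3).2
    rw [← this] at h2
    revert h2
    decide
  -- A
  have hAcard : (univ \ (A1 ∪ A2 ∪ W0)).card + 3 * N = n := by
    have h3 : (A1 ∪ A2 ∪ W0).card = 3 * N := by
      rw [card_union_of_disjoint (disjoint_union_left.2 ⟨h10, h20⟩),
        card_union_of_disjoint h12, hA1c, hA2c, hW0c]
      ring
    have h4 := card_sdiff_add_card_eq_card (subset_univ (A1 ∪ A2 ∪ W0))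
    rw [h3, card_univ, Fintype.card_fin] at h4
    exact h4
  -- embedding
  obtain ⟨φ, hφinj, -, hφA, hφadj⟩ := hE (Fin n) (Fin n) G T hT.2 F ∅ (empty_subset _) id
    (by simp) (by simp) (by simp) (univ \ (A1 ∪ A2 ∪ W0)) (by simp) 80 (2 * s) (n / 100000)
    (Nat.log 2 n + 1) (by norm_num) (by omega)
    (by
      refine le_trans (card_le_univ _) ?_
      rw [Fintype.card_fin]
      exact (Nat.lt_pow_succ_log_self (by norm_num) n).le)
    (by
      intro X Y hX hY hXc hYc
      obtain ⟨Y', hY'sub, hY'c⟩ := exists_subset_card_eq (s := Y) (n := s) (by omega)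
      have hX'c : s ≤ (X \ Y').card ∧ X.card ≤ 2 * (X \ Y').card := by
        have := le_card_sdiff Y' X
        omega
      obtain ⟨b, hb, hb2⟩ := hG.p2 (X \ Y') Y' sdiff_disjoint (by simp) (by simp) hX'c.1
        (by omega)
      refine ⟨b, hY'sub hb, ?_⟩
      have h5 : (nb G b (X \ Y')).card ≤ (nb G b X).card := by
        apply card_le_card
        intro z hz
        rw [mem_nb] at hz ⊢
        exact ⟨(mem_sdiff.1 hz.1).1, hz.2⟩
      omega)
    (by
      intro t _
      have h6 : (nb T t (F \ ∅)).card ≤ (nb T t univ).card := by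
        apply card_le_card
        intro z hz
        rw [mem_nb] at hz ⊢
        exact ⟨mem_univ _, hz.2⟩
      have h7 := hdeg t
      rw [Nat.le_div_iff_mul_le (by norm_num)]
      omega)
    (by simp)
    (by
      simp only [sdiff_empty, sum_empty, card_empty, zero_add, one_mul, add_zero]
      have h8 : 2 * s * (Nat.log 2 n + 1 + 1) = 2 * (s * Nat.log 2 n) + 4 * s := by ring
      rw [h8]
      omega)
  simp only [sdiff_empty] at hφA
  have hφn : ∀ t ∈ F, φ t ∉ A1 ∧ φ t ∉ A2 ∧ φ t ∉ W0 := by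
    intro t ht
    have h9 := hφA t ht
    simp only [mem_sdiff, mem_univ, true_and, mem_union, not_or] at h9
    exact ⟨h9.1.1, h9.1.2, h9.2⟩
  -- u and v
  obtain ⟨u, hu⟩ : ∃ u : Fin N → Fin n, ∀ i, u i = φ (tup i 0) := ⟨fun i => φ (tup i 0), fun _ => rfl⟩
  obtain ⟨v, hv⟩ : ∃ v : Fin N → Fin n, ∀ i, v i = φ (tup i 6) := ⟨fun i => φ (tup i 6), fun _ => rfl⟩
  have huinj : Function.Injective u := by
    intro i j hij
    rw [hu, hu] at hij
    exact (htup' _ _ _ _ (hφinj (h0F i) (h0F j) hij)).1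
  have hvinj : Function.Injective v := by
    intro i j hij
    rw [hv, hv] at hij
    exact (htup' _ _ _ _ (hφinj (h6F i) (h6F j) hij)).1
  have hun : ∀ i, u i ∉ A1 ∧ u i ∉ A2 ∧ u i ∉ W0 := fun i => by rw [hu]; exact hφn _ (h0F i)
  have hvn : ∀ i, v i ∉ A1 ∧ v i ∉ A2 ∧ v i ∉ W0 := fun i => by rw [hv]; exact hφn _ (h6F i)
  -- the system of sets
  obtain ⟨Ws, hWs⟩ : ∃ Ws : Finset (Finset (Fin n)), ∀ W', W' ∈ Ws ↔ N ≤ 10 ^ 7 * W'.card :=
    ⟨univ.filter (fun W' => N ≤ 10 ^ 7 * W'.card), fun W' => by simp⟩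
  have hWs81 : ∀ W' ∈ Ws, 81 * s ≤ W'.card := by
    intro W' hW'
    rw [hWs] at hW'
    omega
  -- first bijection
  obtain ⟨π1, hπ1inj, hπ1A, hπ1f, hπ1b, -⟩ := hBij n hnn0 s N hs4 hN500 hNn A1 hA1c
    (fun i b => Bd G W0 (u i) b)
    (fun i => le_trans (row_le_one hp4 A1 (u i) (hun i).1) (by norm_num))
    (fun b hb => le_trans (col_le_one hp4 u huinj b (fun i h => (hun i).1 (h ▸ hb))) (by norm_num))
    (fun _ W' i b => cnb G (u i) b W' = ∅) Ws
    (fun _ W' hW' => by
      have := hR G s hs hG u huinj A1 W' (hWs81 W' hW')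
      convert this using 6)
    (fun _ _ _ => False) ∅ ∅ (by simp) (by simp)
  have hπ1img : univ.image π1 = A1 := by
    apply eq_of_subset_of_card_le
    · intro z hz
      rw [mem_image] at hz
      obtain ⟨i, -, rfl⟩ := hz
      exact hπ1A i
    · rw [card_image_of_injective _ hπ1inj, card_univ, Fintype.card_fin, hA1c]
  have hπ1A2 : ∀ i, π1 i ∉ A2 := fun i h => (disjoint_left.1 h12) (hπ1A i) h
  -- I1
  obtain ⟨I1, hI1⟩ : ∃ I1 : Finset (Fin N), ∀ i, i ∈ I1 ↔ π1 i ∈ A1' :=
    ⟨univ.filter (fun i => π1 i ∈ A1'), fun i => by simp⟩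
  have hI1card : I1.card ≤ A1'.card := by
    rw [← card_image_of_injective I1 hπ1inj]
    apply card_le_card
    intro z hz
    rw [mem_image] at hz
    obtain ⟨i, hi, rfl⟩ := hz
    exact (hI1 i).1 hi
  -- second bijection
  obtain ⟨π2, hπ2inj, hπ2A, hπ2f, hπ2b, hπ2g⟩ := hBij n hnn0 s N hs4 hN500 hNn A2 hA2c
    (fun i b => Bd G W0 (π1 i) b ∨ Bd G W0 (v i) b)
    (fun i => by
      have e1 := row_le_one hp4 A2 (π1 i) (hπ1A2 i)
      have e2 := row_le_one hp4 A2 (v i) (hvn i).2.1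
      have e3 : (A2.filter (fun b => Bd G W0 (π1 i) b ∨ Bd G W0 (v i) b)).card ≤
          (A2.filter (fun b => Bd G W0 (π1 i) b)).card +
          (A2.filter (fun b => Bd G W0 (v i) b)).card := by
        refine le_trans (card_le_card ?_) (card_union_le _ _)
        intro z hz
        simp only [mem_filter, mem_union] at hz ⊢
        tauto
      refine le_trans (le_of_eq ?_) (le_trans e3 (by omega : _ ≤ 2))
      congr!)
    (fun b hb => by
      have e1 := col_le_one hp4 π1 hπ1inj b (fun i h => hπ1A2 i (h ▸ hb))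
      have e2 := col_le_one hp4 v hvinj b (fun i h => (hvn i).2.1 (h ▸ hb))
      have e3 : (univ.filter (fun i => Bd G W0 (π1 i) b ∨ Bd G W0 (v i) b)).card ≤
          (univ.filter (fun i => Bd G W0 (π1 i) b)).card +
          (univ.filter (fun i => Bd G W0 (v i) b)).card := by
        refine le_trans (card_le_card ?_) (card_union_le _ _)
        intro z hz
        simp only [mem_filter, mem_union] at hz ⊢
        tauto
      refine le_trans (le_of_eq ?_) (le_trans e3 (by omega : _ ≤ 2))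
      congr!)
    (fun c W' i b => if c = 0 then cnb G (π1 i) b W' = ∅ else cnb G (v i) b W' = ∅) Ws
    (fun c W' hW' => by
      by_cases hc : c = 0
      · have := hR G s hs hG π1 hπ1inj A2 W' (hWs81 W' hW')
        simp only [hc, if_true]
        convert this using 6
      · have := hR G s hs hG v hvinj A2 W' (hWs81 W' hW')
        simp only [hc, if_false]
        convert this using 6)
    (fun w i b => G.Adj w (π1 i) ∧ G.Adj w b) univ I1 (by omega)
    (by
      intro w _
      -- degree of w into A2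
      have e1 : N ≤ 41 * (nb G w A2).card := by
        have f1 := hp1' w
        have f2 : (nb G w (A2.erase w)).card ≤ (nb G w A2).card := by
          apply card_le_card
          intro z hz
          rw [mem_nb] at hz ⊢
          exact ⟨mem_of_mem_erase hz.1, hz.2⟩
        have f3 : A2.card ≤ (A2.erase w).card + 1 := by
          have := pred_card_le_card_erase (s := A2) (a := w)
          omega
        omega
      have e2 : N ≤ 8000 * (nb G w A1').card := by
        have f1 := hp1 w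
        have f2 : (nb G w (A1'.erase w)).card ≤ (nb G w A1').card := by
          apply card_le_card
          intro z hz
          rw [mem_nb] at hz ⊢
          exact ⟨mem_of_mem_erase hz.1, hz.2⟩
        have f3 : A1'.card ≤ (A1'.erase w).card + 1 := by
          have := pred_card_le_card_erase (s := A1') (a := w)
          omega
        omega
      refine le_trans e2 (Nat.mul_le_mul_left _ ?_)
      have e3 : nb G w A1' ⊆ (I1.filter (fun i => N ≤ 41 * (A2.filter (fun b => G.Adj w (π1 i) ∧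
          G.Adj w b)).card)).image π1 := by
        intro z hz
        rw [mem_nb] at hz
        have hzA1 : z ∈ univ.image π1 := by rw [hπ1img]; exact hA1'sub hz.1
        rw [mem_image] at hzA1
        obtain ⟨i, -, hi⟩ := hzA1
        rw [mem_image]
        refine ⟨i, ?_, hi⟩
        rw [mem_filter]
        refine ⟨(hI1 i).2 (by rw [hi]; exact hz.1), ?_⟩
        refine le_trans e1 (Nat.mul_le_mul_left _ (card_le_card ?_))
        intro y hy
        rw [mem_nb] at hy
        rw [mem_filter]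
        exact ⟨hy.1, by rw [hi]; exact hz.2, hy.2⟩
      refine le_trans (card_le_card e3) ?_
      refine le_trans card_image_le (le_of_eq ?_)
      congr!)
  -- W
  obtain ⟨W, hW⟩ : ∃ W : Finset (Fin n), W = univ \ (A1 ∪ A2 ∪ F.image φ) := ⟨_, rfl⟩
  have hWmem : ∀ w, w ∈ W ↔ w ∉ A1 ∧ w ∉ A2 ∧ w ∉ F.image φ := by
    intro w
    rw [hW]
    simp only [mem_sdiff, mem_univ, true_and, mem_union, not_or, and_assoc]
  have hFimg : (F.image φ).card = F.card := card_image_of_injOn hφinj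
  have hd1 : Disjoint A1 (F.image φ) := by
    rw [disjoint_left]
    intro z hz hz'
    rw [mem_image] at hz'
    obtain ⟨t, ht, rfl⟩ := hz'
    exact (hφn t ht).1 hz
  have hd2 : Disjoint A2 (F.image φ) := by
    rw [disjoint_left]
    intro z hz hz'
    rw [mem_image] at hz'
    obtain ⟨t, ht, rfl⟩ := hz'
    exact (hφn t ht).2.1 hz
  have hWcard : W.card = 3 * N := by
    have h3 : (A1 ∪ A2 ∪ F.image φ).card = 2 * N + F.card := by
      rw [card_union_of_disjoint (disjoint_union_left.2 ⟨hd1, hd2⟩),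
        card_union_of_disjoint h12, hA1c, hA2c, hFimg]
      ring
    have h4 := card_sdiff_add_card_eq_card (subset_univ (A1 ∪ A2 ∪ F.image φ))
    rw [h3, card_univ, Fintype.card_fin, ← hW] at h4
    omega
  have hW0W : W0 ⊆ W := by
    intro z hz
    rw [hWmem]
    refine ⟨fun h => (disjoint_left.1 h10) h hz, fun h => (disjoint_left.1 h20) h hz, ?_⟩
    intro h
    rw [mem_image] at h
    obtain ⟨t, ht, rfl⟩ := h
    exact (hφn t ht).2.2 hz
  -- comp
  obtain ⟨comp, hcomp0, hcomp1, hcomp2⟩ : ∃ comp : Fin 3 → Fin N → Fin n → Prop,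
      (∀ i w, comp 0 i w ↔ G.Adj (u i) w ∧ G.Adj (π1 i) w) ∧
      (∀ i w, comp 1 i w ↔ G.Adj (π1 i) w ∧ G.Adj (π2 i) w) ∧
      (∀ i w, comp 2 i w ↔ G.Adj (π2 i) w ∧ G.Adj (v i) w) :=
    ⟨![fun i w => G.Adj (u i) w ∧ G.Adj (π1 i) w, fun i w => G.Adj (π1 i) w ∧ G.Adj (π2 i) w,
      fun i w => G.Adj (π2 i) w ∧ G.Adj (v i) w], fun _ _ => Iff.rfl, fun _ _ => Iff.rfl,
      fun _ _ => Iff.rfl⟩
  -- connecting vertices
  obtain ⟨m, hminj, hmW, hmc⟩ := hPH (Fin n) N (by omega) comp W hWcard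
    (by
      intro c i
      have key : ∀ x y : Fin n, ¬ Bd G W0 x y → (∀ w, G.Adj x w ∧ G.Adj y w → comp c i w) →
          N ≤ 80 * (W.filter (fun w => comp c i w)).card := by
        intro x y hnb himp
        unfold Bd at hnb
        have : (cnb G x y W0).card ≤ (W.filter (fun w => comp c i w)).card := by
          apply card_le_card
          intro z hz
          rw [mem_cnb] at hz
          rw [memf]
          exact ⟨hW0W hz.1, himp z hz.2⟩
        omega
      fin_cases c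
      · exact key (u i) (π1 i) (hπ1f i) (fun w hw => (hcomp0 i w).2 hw)
      · exact key (π1 i) (π2 i) (fun h => hπ2f i (Or.inl h)) (fun w hw => (hcomp1 i w).2 hw)
      · exact key (π2 i) (v i) (fun h => hπ2f i (Or.inr (Bd_symm h)))
          (fun w hw => (hcomp2 i w).2 hw))
    (by
      intro w _
      have := hπ2g w (mem_univ w)
      refine le_trans this (Nat.mul_le_mul_left _ (card_le_card ?_))
      intro i hi
      rw [memf] at hi ⊢
      refine ⟨mem_univ _, (hcomp1 i w).2 ⟨hi.2.1.symm, hi.2.2.symm⟩⟩)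
    (by
      intro c W' hW'W hW'c
      have hWsW' : W' ∈ Ws := (hWs W').2 hW'c
      fin_cases c
      · have := hπ1b 0 W' hWsW'
        refine le_trans (Nat.mul_le_mul_left _ (card_le_card ?_)) this
        intro i hi
        rw [memf] at hi ⊢
        refine ⟨mem_univ _, ?_⟩
        rw [eq_empty_iff_forall_notMem]
        intro w hw
        rw [mem_cnb] at hw
        exact hi.2 w hw.1 ((hcomp0 i w).2 hw.2)
      · have := hπ2b 0 W' hWsW'
        refine le_trans (Nat.mul_le_mul_left _ (card_le_card ?_)) this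
        intro i hi
        rw [memf] at hi ⊢
        refine ⟨mem_univ _, ?_⟩
        rw [if_pos rfl, eq_empty_iff_forall_notMem]
        intro w hw
        rw [mem_cnb] at hw
        exact hi.2 w hw.1 ((hcomp1 i w).2 hw.2)
      · have := hπ2b 1 W' hWsW'
        refine le_trans (Nat.mul_le_mul_left _ (card_le_card ?_)) this
        intro i hi
        rw [memf] at hi ⊢
        refine ⟨mem_univ _, ?_⟩
        rw [if_neg (by decide), eq_empty_iff_forall_notMem]
        intro w hw
        rw [mem_cnb] at hw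
        exact hi.2 w hw.1 ((hcomp2 i w).2 ⟨hw.2.2, hw.2.1⟩))
  -- closing
  have hmW' : ∀ c i, m c i ∉ A1 ∧ m c i ∉ A2 ∧ m c i ∉ F.image φ := fun c i =>
    (hWmem _).1 (hmW c i)
  refine hPC (Fin n) (Fin n) G T rfl N tup htup hadjt hdeg2 F hF φ hφinj hφadj π1 π2 m hπ1inj
    hπ2inj hminj ?_ ?_ ?_ ?_ ?_ ?_ ?_ ?_ ?_
  · intro i j h
    exact hπ1A2 i (h ▸ hπ2A j)
  · intro i c j h
    exact (hmW' c j).1 (h ▸ hπ1A i)
  · intro i c j h
    exact (hmW' c j).2.1 (h ▸ hπ2A i)
  · intro t ht i h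
    exact (hφn t ht).1 (h ▸ hπ1A i)
  · intro t ht i h
    exact (hφn t ht).2.1 (h ▸ hπ2A i)
  · intro t ht c i h
    exact (hmW' c i).2.2 (h ▸ mem_image_of_mem φ ht)
  · intro i
    rw [← hu]
    exact (hcomp0 i _).1 (hmc 0 i)
  · intro i
    exact (hcomp1 i _).1 (hmc 1 i)
  · intro i
    rw [← hv]
    exact (hcomp2 i _).1 (hmc 2 i)

end Pool.Agent.TH124.MB
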