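import Pool.Agent.TH196.Cara.Defs

/-!
The cap function (job 3228).
-/

set_option autoImplicit false
open Complex
open scoped ContDiff

namespace Pool.Agent.TH124.Cap

open Pool.Agent.TH196.Cara
open Pool.Agent.TH196.Loew (QQ)

theorem nsq (z : ℂ) : ‖z‖ ^ 2 = z.re ^ 2 + z.im ^ 2 := by
  rw [← Complex.normSq_eq_norm_sq, Complex.normSq_apply]
  ring

theorem cap_zero (a : ℝ) (z : ℂ) (hz : ‖z‖ ^ 2 ≤ a) : cap a z = 0 := by
  unfold cap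
  rw [Real.smoothTransition.zero_of_nonpos (by linarith), zero_mul]

theorem cap_far (a : ℝ) (z : ℂ) (hz : a + 1 ≤ ‖z‖ ^ 2) :
    cap a z = (z.re ^ 2 - z.im ^ 2) / ‖z‖ ^ 2 := by
  unfold cap
  rw [Real.smoothTransition.one_of_one_le (by linarith), one_mul]

theorem cap_contDiff (a : ℝ) (ha : 0 < a) : ContDiff ℝ ∞ (cap a) := by
  have hn : ContDiff ℝ ∞ fun z : ℂ => ‖z‖ ^ 2 := contDiff_norm_sq ℝ
  rw [contDiff_iff_contDiffAt]
  intro z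
  by_cases hz : ‖z‖ ^ 2 < a
  · have h1 : cap a =ᶠ[nhds z] fun _ => 0 := by
      have h2 : {w : ℂ | ‖w‖ ^ 2 < a} ∈ nhds z :=
        (isOpen_lt hn.continuous continuous_const).mem_nhds hz
      filter_upwards [h2] with w hw
      exact cap_zero a w (le_of_lt hw)
    exact contDiffAt_const.congr_of_eventuallyEq h1
  · have h1 : ‖z‖ ^ 2 ≠ 0 := by
      intro hc
      apply hz
      rw [hc]
      exact ha
    unfold cap
    have h2 : ContDiff ℝ ∞ fun z : ℂ => Real.smoothTransition (‖z‖ ^ 2 - a) :=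
      Real.smoothTransition.contDiff.comp (hn.sub contDiff_const)
    have h3 : ContDiff ℝ ∞ fun z : ℂ => z.re ^ 2 - z.im ^ 2 :=
      (Complex.reCLM.contDiff.pow 2).sub (Complex.imCLM.contDiff.pow 2)
    exact h2.contDiffAt.mul (h3.contDiffAt.div hn.contDiffAt h1)

/-- first derivative of `cos 2θ` -/
theorem d1 {w : ℂ} (hw : w ≠ 0) :
    HasFDerivAt (fun w : ℂ => (w.re ^ 2 - w.im ^ 2) * (w.re ^ 2 + w.im ^ 2)⁻¹)
      ((4 * w.re * w.im ^ 2 * ((w.re ^ 2 + w.im ^ 2) ^ 2)⁻¹) • Complex.reCLM +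
        (-4 * w.re ^ 2 * w.im * ((w.re ^ 2 + w.im ^ 2) ^ 2)⁻¹) • Complex.imCLM) w := by
  have hr : w.re ^ 2 + w.im ^ 2 ≠ 0 := by
    rw [← nsq]
    simpa using hw
  have hx : HasFDerivAt (fun w : ℂ => w.re) Complex.reCLM w := Complex.reCLM.hasFDerivAt
  have hy : HasFDerivAt (fun w : ℂ => w.im) Complex.imCLM w := Complex.imCLM.hasFDerivAt
  have h1 := (hx.pow 2).sub (hy.pow 2)
  have h2 := (hasDerivAt_inv hr).comp_hasFDerivAt w ((hx.pow 2).add (hy.pow 2))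
  have h3 := h1.mul h2
  refine h3.congr_fderiv ?_
  ext u
  simp
  field_simp
  ring

theorem d2x {w : ℂ} (hw : w ≠ 0) :
    HasFDerivAt (fun w : ℂ => 4 * w.re * w.im ^ 2 * ((w.re ^ 2 + w.im ^ 2) ^ 2)⁻¹)
      ((4 * w.im ^ 2 * (w.im ^ 2 - 3 * w.re ^ 2) * ((w.re ^ 2 + w.im ^ 2) ^ 3)⁻¹) •
          Complex.reCLM +
        (8 * w.re * w.im * (w.re ^ 2 - w.im ^ 2) * ((w.re ^ 2 + w.im ^ 2) ^ 3)⁻¹) •
          Complex.imCLM) w := by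
  have hr : w.re ^ 2 + w.im ^ 2 ≠ 0 := by
    rw [← nsq]
    simpa using hw
  have hr2 : (w.re ^ 2 + w.im ^ 2) ^ 2 ≠ 0 := pow_ne_zero 2 hr
  have hx : HasFDerivAt (fun w : ℂ => w.re) Complex.reCLM w := Complex.reCLM.hasFDerivAt
  have hy : HasFDerivAt (fun w : ℂ => w.im) Complex.imCLM w := Complex.imCLM.hasFDerivAt
  have h1 := (hx.const_mul 4).mul (hy.pow 2)
  have h2 := (hasDerivAt_inv hr2).comp_hasFDerivAt w (((hx.pow 2).add (hy.pow 2)).pow 2)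
  have h3 := h1.mul h2
  refine h3.congr_fderiv ?_
  ext u
  simp
  field_simp
  ring

theorem d2y {w : ℂ} (hw : w ≠ 0) :
    HasFDerivAt (fun w : ℂ => -4 * w.re ^ 2 * w.im * ((w.re ^ 2 + w.im ^ 2) ^ 2)⁻¹)
      ((8 * w.re * w.im * (w.re ^ 2 - w.im ^ 2) * ((w.re ^ 2 + w.im ^ 2) ^ 3)⁻¹) •
          Complex.reCLM +
        (-4 * w.re ^ 2 * (w.re ^ 2 - 3 * w.im ^ 2) * ((w.re ^ 2 + w.im ^ 2) ^ 3)⁻¹) •
          Complex.imCLM) w := by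
  have hr : w.re ^ 2 + w.im ^ 2 ≠ 0 := by
    rw [← nsq]
    simpa using hw
  have hr2 : (w.re ^ 2 + w.im ^ 2) ^ 2 ≠ 0 := pow_ne_zero 2 hr
  have hx : HasFDerivAt (fun w : ℂ => w.re) Complex.reCLM w := Complex.reCLM.hasFDerivAt
  have hy : HasFDerivAt (fun w : ℂ => w.im) Complex.imCLM w := Complex.imCLM.hasFDerivAt
  have h1 := ((hx.pow 2).const_mul (-4)).mul hy
  have h2 := (hasDerivAt_inv hr2).comp_hasFDerivAt w (((hx.pow 2).add (hy.pow 2)).pow 2)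
  have h3 := h1.mul h2
  refine h3.congr_fderiv ?_
  ext u
  simp
  field_simp
  ring

theorem QQ_cap_far (a : ℝ) (ha : 0 < a) (z : ℂ) (hz : a + 1 < ‖z‖ ^ 2) :
    QQ (cap a) z = 4 * z / (starRingEnd ℂ z) ^ 3 := by
  have hn : ContDiff ℝ ∞ fun z : ℂ => ‖z‖ ^ 2 := contDiff_norm_sq ℝ
  have hz0 : z ≠ 0 := by
    rintro rfl
    norm_num at hz
    linarith
  have h1 : cap a =ᶠ[nhds z] fun w : ℂ => (w.re ^ 2 - w.im ^ 2) * (w.re ^ 2 + w.im ^ 2)⁻¹ := by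
    have h2 : {w : ℂ | a + 1 < ‖w‖ ^ 2} ∈ nhds z :=
      (isOpen_lt continuous_const hn.continuous).mem_nhds hz
    filter_upwards [h2] with w hw
    rw [cap_far a w (le_of_lt hw), nsq, div_eq_mul_inv]
  have h2 : fderiv ℝ (cap a) =ᶠ[nhds z] fun w : ℂ =>
      (4 * w.re * w.im ^ 2 * ((w.re ^ 2 + w.im ^ 2) ^ 2)⁻¹) • Complex.reCLM +
        (-4 * w.re ^ 2 * w.im * ((w.re ^ 2 + w.im ^ 2) ^ 2)⁻¹) • Complex.imCLM := by
    filter_upwards [Filter.EventuallyEq.fderiv (𝕜 := ℝ) h1, isOpen_ne.mem_nhds hz0] with w hw hw0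
    rw [hw, (d1 hw0).fderiv]
  have h3 : fderiv ℝ (fderiv ℝ (cap a)) z =
      ((4 * z.im ^ 2 * (z.im ^ 2 - 3 * z.re ^ 2) * ((z.re ^ 2 + z.im ^ 2) ^ 3)⁻¹) •
          Complex.reCLM +
        (8 * z.re * z.im * (z.re ^ 2 - z.im ^ 2) * ((z.re ^ 2 + z.im ^ 2) ^ 3)⁻¹) •
          Complex.imCLM).smulRight Complex.reCLM +
      ((8 * z.re * z.im * (z.re ^ 2 - z.im ^ 2) * ((z.re ^ 2 + z.im ^ 2) ^ 3)⁻¹) •
          Complex.reCLM +
        (-4 * z.re ^ 2 * (z.re ^ 2 - 3 * z.im ^ 2) * ((z.re ^ 2 + z.im ^ 2) ^ 3)⁻¹) •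
          Complex.imCLM).smulRight Complex.imCLM := by
    rw [h2.fderiv_eq]
    exact (((d2x hz0).smul_const Complex.reCLM).add ((d2y hz0).smul_const Complex.imCLM)).fderiv
  unfold Pool.Agent.TH196.Loew.QQ
  rw [iteratedFDeriv_two_apply, iteratedFDeriv_two_apply, iteratedFDeriv_two_apply, h3]
  have hr : z.re ^ 2 + z.im ^ 2 ≠ 0 := by
    rw [← nsq]
    simpa using hz0
  have hr' : ((z.re : ℂ) ^ 2 + (z.im : ℂ) ^ 2) ≠ 0 := by exact_mod_cast hr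
  have hc : starRingEnd ℂ z ≠ 0 := by simpa using hz0
  have hm : z * starRingEnd ℂ z = (z.re : ℂ) ^ 2 + (z.im : ℂ) ^ 2 := by
    rw [Complex.mul_conj, Complex.normSq_apply]
    push_cast
    ring
  have e1 : 4 * z / (starRingEnd ℂ z) ^ 3 =
      4 * z ^ 4 * (((z.re : ℂ) ^ 2 + (z.im : ℂ) ^ 2) ^ 3)⁻¹ := by
    rw [← hm]
    field_simp
  rw [e1]
  have e2 : z ^ 4 = ((z.re : ℂ) + (z.im : ℂ) * I) ^ 4 := by rw [Complex.re_add_im]
  have e3 : ((z.re : ℂ) + (z.im : ℂ) * I) ^ 4 =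
      ((z.re : ℂ) ^ 4 - 6 * (z.re : ℂ) ^ 2 * (z.im : ℂ) ^ 2 + (z.im : ℂ) ^ 4) +
      4 * (z.re : ℂ) * (z.im : ℂ) * ((z.re : ℂ) ^ 2 - (z.im : ℂ) ^ 2) * I := by
    linear_combination ((4 * (z.re : ℂ) * (z.im : ℂ) ^ 3) * I +
      (z.im : ℂ) ^ 4 * (I ^ 2 - 1) + 6 * (z.re : ℂ) ^ 2 * (z.im : ℂ) ^ 2) * Complex.I_sq
  rw [e2, e3]
  simp
  ring

end Pool.Agent.TH124.Cap
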