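import Pool.Agent.TH387.EI.Defs

/-!
# The improvement step: averaging over almost invariant sets of unitaries
-/

set_option autoImplicit false
set_option linter.unusedSectionVars false

open scoped ComplexOrder InnerProductSpace

noncomputable section

namespace Pool.Agent.TH124.EIImp

open Pool.Agent.TH387.EI

universe u

variable {H K : Type u} [NormedAddCommGroup H] [InnerProductSpace ℂ H] [CompleteSpace H]
  [NormedAddCommGroup K] [InnerProductSpace ℂ K] [CompleteSpace K]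

lemma inner_self_c {E : Type u} [NormedAddCommGroup E] [InnerProductSpace ℂ E] (x : E) :
    ⟪x, x⟫_ℂ = ((‖x‖ ^ 2 : ℝ) : ℂ) := by
  rw [inner_self_eq_norm_sq_to_K]
  push_cast
  rfl

lemma nsq {V : H → K} {δ : ℝ} (hV : NW V δ) {η : H} (hη : ‖η‖ ≤ 1) :
    |‖V η‖ ^ 2 - ‖η‖ ^ 2| ≤ δ := by
  have h := hV.inner η η hη hη
  rw [inner_self_c, inner_self_c, ← Complex.ofReal_sub, Complex.norm_real, Real.norm_eq_abs] at h
  exact h

lemma norm_V_le {V : H → K} {δ : ℝ} (hδ : 0 < δ) (hV : NW V δ) {η : H} (hη : ‖η‖ ≤ 1) :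
    ‖V η‖ ≤ 1 + δ := by
  have h := (abs_le.1 (nsq hV hη)).2
  have h1 : ‖η‖ ^ 2 ≤ 1 := by
    have := norm_nonneg η
    nlinarith
  have h2 := norm_nonneg (V η)
  nlinarith

/-- (B2) -/
lemma test {V : H → K} {δ : ℝ} (hδ1 : δ ≤ 1 / 2) (hV : NW V δ) {k : K} {c : ℝ}
    (h : ∀ ζ, ‖ζ‖ ≤ 1 → ‖⟪V ζ, k⟫_ℂ‖ ≤ c) : ‖k‖ ≤ 2 * c := by
  have hc : 0 ≤ c := (norm_nonneg _).trans (h 0 (by simp))
  rcases eq_or_ne k 0 with rfl | hk
  · rw [norm_zero]; linarith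
  have hk0 : 0 < ‖k‖ := norm_pos_iff.2 hk
  set k' : K := ((‖k‖⁻¹ : ℝ) : ℂ) • k with hk'
  have hn : ‖k'‖ = 1 := by
    rw [hk', norm_smul, Complex.norm_real, Real.norm_eq_abs, abs_of_pos (inv_pos.2 hk0)]
    field_simp
  obtain ⟨ζ, hζ, hd⟩ := hV.dense k' hn.le
  have h1 : ⟪k', k⟫_ℂ = ((‖k‖ : ℝ) : ℂ) := by
    rw [hk', inner_smul_left, Complex.conj_ofReal, inner_self_c, ← Complex.ofReal_mul]
    congr 1
    field_simp
  have h2 : ‖⟪k', k⟫_ℂ‖ ≤ c + δ * ‖k‖ := by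
    have e : ⟪k', k⟫_ℂ = ⟪V ζ, k⟫_ℂ - ⟪V ζ - k', k⟫_ℂ := by
      rw [inner_sub_left]; ring
    rw [e]
    refine (norm_sub_le _ _).trans (add_le_add (h ζ hζ) ?_)
    exact (norm_inner_le_norm _ _).trans (mul_le_mul_of_nonneg_right hd (norm_nonneg _))
  rw [h1, Complex.norm_real, Real.norm_eq_abs, abs_of_pos hk0] at h2
  nlinarith

/-- (B5) -/
lemma opn {V : H → K} {δ : ℝ} (hδ : 0 < δ) (hδ1 : δ ≤ 1 / 2) (hV : NW V δ) (X : K →L[ℂ] K)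
    {c : ℝ} (h : ∀ ζ, ‖ζ‖ ≤ 1 → ‖X (V ζ)‖ ≤ c) : ‖X‖ ≤ 2 * c := by
  have hc : 0 ≤ c := (norm_nonneg _).trans (h 0 (by simp))
  have h1 : ‖X‖ ≤ c + δ * ‖X‖ := by
    have hx := norm_nonneg X
    refine X.opNorm_le_bound (by positivity) fun k => ?_
    rcases eq_or_ne k 0 with rfl | hk
    · simp
    have hk0 : 0 < ‖k‖ := norm_pos_iff.2 hk
    set k' : K := ((‖k‖⁻¹ : ℝ) : ℂ) • k with hk'
    have hn : ‖k'‖ = 1 := by
      rw [hk', norm_smul, Complex.norm_real, Real.norm_eq_abs, abs_of_pos (inv_pos.2 hk0)]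
      field_simp
    obtain ⟨ζ, hζ, hd⟩ := hV.dense k' hn.le
    have e1 : k = ((‖k‖ : ℝ) : ℂ) • k' := by
      rw [hk', smul_smul, ← Complex.ofReal_mul, mul_inv_cancel₀ hk0.ne', Complex.ofReal_one,
        one_smul]
    have h2 : ‖X k'‖ ≤ c + δ * ‖X‖ := by
      have e : X k' = X (V ζ) - X (V ζ - k') := by
        rw [map_sub]; abel
      rw [e]
      refine (norm_sub_le _ _).trans (add_le_add (h ζ hζ) ?_)
      refine (X.le_opNorm _).trans ?_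
      rw [mul_comm]
      exact mul_le_mul_of_nonneg_right hd hx
    conv_lhs => rw [e1]
    rw [map_smul, norm_smul, Complex.norm_real, Real.norm_eq_abs, abs_of_pos hk0, mul_comm]
    exact mul_le_mul_of_nonneg_right h2 hk0.le
  have hx := norm_nonneg X
  nlinarith

lemma test2 {V : H → K} {δ : ℝ} (hδ : 0 < δ) (hδ1 : δ ≤ 1 / 2) (hV : NW V δ) (X : K →L[ℂ] K)
    {c : ℝ} (h : ∀ η ζ, ‖η‖ ≤ 1 → ‖ζ‖ ≤ 1 → ‖⟪V η, X (V ζ)⟫_ℂ‖ ≤ c) : ‖X‖ ≤ 4 * c := by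
  have h1 := opn hδ hδ1 hV X (c := 2 * c) fun ζ hζ => test hδ1 hV fun η hη => h η ζ hη hζ
  linarith

/-- (B3) -/
lemma lin {V : H → K} {δ : ℝ} (hδ1 : δ ≤ 1 / 2) (hV : NW V δ) {η ζ : H} {l m : ℂ}
    (hη : ‖η‖ ≤ 1) (hζ : ‖ζ‖ ≤ 1) (hl : ‖l‖ ≤ 1) (hm : ‖m‖ ≤ 1) (hs : ‖l • η + m • ζ‖ ≤ 1) :
    ‖V (l • η + m • ζ) - l • V η - m • V ζ‖ ≤ 6 * δ := by
  have h := test hδ1 hV (k := V (l • η + m • ζ) - l • V η - m • V ζ) (c := 3 * δ) fun θ hθ => by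
    have h1 := hV.inner θ _ hθ hs
    have h2 := hV.inner θ _ hθ hη
    have h3 := hV.inner θ _ hθ hζ
    have e : ⟪V θ, V (l • η + m • ζ) - l • V η - m • V ζ⟫_ℂ =
        (⟪V θ, V (l • η + m • ζ)⟫_ℂ - ⟪θ, l • η + m • ζ⟫_ℂ) -
          l * (⟪V θ, V η⟫_ℂ - ⟪θ, η⟫_ℂ) - m * (⟪V θ, V ζ⟫_ℂ - ⟪θ, ζ⟫_ℂ) := by
      rw [inner_sub_right, inner_sub_right, inner_smul_right, inner_smul_right, inner_add_right,
        inner_smul_right, inner_smul_right]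
      ring
    rw [e]
    have g2 : ‖l * (⟪V θ, V η⟫_ℂ - ⟪θ, η⟫_ℂ)‖ ≤ δ := by
      rw [norm_mul]
      calc ‖l‖ * ‖⟪V θ, V η⟫_ℂ - ⟪θ, η⟫_ℂ‖ ≤ 1 * δ :=
            mul_le_mul hl h2 (norm_nonneg _) zero_le_one
        _ = δ := one_mul _
    have g3 : ‖m * (⟪V θ, V ζ⟫_ℂ - ⟪θ, ζ⟫_ℂ)‖ ≤ δ := by
      rw [norm_mul]
      calc ‖m‖ * ‖⟪V θ, V ζ⟫_ℂ - ⟪θ, ζ⟫_ℂ‖ ≤ 1 * δ :=
            mul_le_mul hm h3 (norm_nonneg _) zero_le_one
        _ = δ := one_mul _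
    have g4 := norm_sub_le ((⟪V θ, V (l • η + m • ζ)⟫_ℂ - ⟪θ, l • η + m • ζ⟫_ℂ) -
          l * (⟪V θ, V η⟫_ℂ - ⟪θ, η⟫_ℂ)) (m * (⟪V θ, V ζ⟫_ℂ - ⟪θ, ζ⟫_ℂ))
    have g5 := norm_sub_le (⟪V θ, V (l • η + m • ζ)⟫_ℂ - ⟪θ, l • η + m • ζ⟫_ℂ)
          (l * (⟪V θ, V η⟫_ℂ - ⟪θ, η⟫_ℂ))
    linarith
  linarith

lemma lin1 {V : H → K} {δ : ℝ} (hδ1 : δ ≤ 1 / 2) (hV : NW V δ) {η : H} {l : ℂ}
    (hη : ‖η‖ ≤ 1) (hl : ‖l‖ ≤ 1) : ‖V (l • η) - l • V η‖ ≤ 6 * δ := by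
  have hs : ‖l • η + (0 : ℂ) • η‖ ≤ 1 := by
    rw [zero_smul, add_zero, norm_smul]
    exact mul_le_one₀ hl (norm_nonneg _) hη
  have h := lin hδ1 hV (η := η) (ζ := η) (l := l) (m := 0) hη hη hl (by simp) hs
  rwa [zero_smul, zero_smul, add_zero, sub_zero] at h

/-- `S` represents `T` -/
structure Rep (V : H → K) (δ : ℝ) (T : H →L[ℂ] H) (S : K →L[ℂ] K) : Prop where
  nT : ‖T‖ ≤ 1
  nS : ‖S‖ ≤ 2
  rep : ∀ η ζ, ‖η‖ ≤ 1 → ‖ζ‖ ≤ 1 → ‖⟪V η, S (V ζ)⟫_ℂ - ⟪η, T ζ⟫_ℂ‖ ≤ δ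

lemma Rep.ball {V : H → K} {δ : ℝ} {T : H →L[ℂ] H} {S : K →L[ℂ] K} (h : Rep V δ T S) {ζ : H}
    (hζ : ‖ζ‖ ≤ 1) : ‖T ζ‖ ≤ 1 :=
  (T.le_opNorm ζ).trans (mul_le_one₀ h.nT (norm_nonneg _) hζ)

lemma Rep.app_le {V : H → K} {δ : ℝ} {T : H →L[ℂ] H} {S : K →L[ℂ] K} (h : Rep V δ T S) (k : K) :
    ‖S k‖ ≤ 2 * ‖k‖ :=
  (S.le_opNorm k).trans (mul_le_mul_of_nonneg_right h.nS (norm_nonneg _))

/-- (B4) -/
lemma Rep.near {V : H → K} {δ : ℝ} (hδ1 : δ ≤ 1 / 2) (hV : NW V δ) {T : H →L[ℂ] H}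
    {S : K →L[ℂ] K} (h : Rep V δ T S) {ζ : H} (hζ : ‖ζ‖ ≤ 1) :
    ‖S (V ζ) - V (T ζ)‖ ≤ 4 * δ := by
  have h1 := test hδ1 hV (k := S (V ζ) - V (T ζ)) (c := 2 * δ) fun η hη => by
    have h2 := h.rep η ζ hη hζ
    have h3 := hV.inner η (T ζ) hη (h.ball hζ)
    have e : ⟪V η, S (V ζ) - V (T ζ)⟫_ℂ = (⟪V η, S (V ζ)⟫_ℂ - ⟪η, T ζ⟫_ℂ) -
        (⟪V η, V (T ζ)⟫_ℂ - ⟪η, T ζ⟫_ℂ) := by
      rw [inner_sub_right]; ring
    rw [e]
    refine (norm_sub_le _ _).trans ?_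
    linarith
  linarith

lemma Rep.diff {V : H → K} {δ : ℝ} (hδ : 0 < δ) (hδ1 : δ ≤ 1 / 2) (hV : NW V δ)
    {T T' : H →L[ℂ] H} {S S' : K →L[ℂ] K} (h : Rep V δ T S) (h' : Rep V δ T' S') {c : ℝ}
    (hc : ‖T - T'‖ ≤ c) : ‖S - S'‖ ≤ 4 * (c + 2 * δ) := by
  refine test2 hδ hδ1 hV _ fun η ζ hη hζ => ?_
  have h2 := h.rep η ζ hη hζ
  have h3 := h'.rep η ζ hη hζ
  have e : ⟪V η, (S - S') (V ζ)⟫_ℂ = (⟪V η, S (V ζ)⟫_ℂ - ⟪η, T ζ⟫_ℂ) -
      (⟪V η, S' (V ζ)⟫_ℂ - ⟪η, T' ζ⟫_ℂ) + ⟪η, (T - T') ζ⟫_ℂ := by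
    rw [_root_.sub_apply, _root_.sub_apply, inner_sub_right,
      inner_sub_right]
    ring
  have h4 : ‖⟪η, (T - T') ζ⟫_ℂ‖ ≤ c := by
    have h5 : ‖(T - T') ζ‖ ≤ c := by
      refine ((T - T').le_opNorm ζ).trans ?_
      have := norm_nonneg (T - T')
      have := norm_nonneg ζ
      nlinarith
    refine (norm_inner_le_norm _ _).trans ?_
    have := norm_nonneg ((T - T') ζ)
    have := norm_nonneg η
    nlinarith
  rw [e]
  have g1 := norm_add_le ((⟪V η, S (V ζ)⟫_ℂ - ⟪η, T ζ⟫_ℂ) -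
      (⟪V η, S' (V ζ)⟫_ℂ - ⟪η, T' ζ⟫_ℂ)) ⟪η, (T - T') ζ⟫_ℂ
  have g2 := norm_sub_le (⟪V η, S (V ζ)⟫_ℂ - ⟪η, T ζ⟫_ℂ) (⟪V η, S' (V ζ)⟫_ℂ - ⟪η, T' ζ⟫_ℂ)
  linarith

lemma Rep.mul {V : H → K} {δ : ℝ} (hδ : 0 < δ) (hδ1 : δ ≤ 1 / 2) (hV : NW V δ)
    {T T' T'' : H →L[ℂ] H} {S S' S'' : K →L[ℂ] K} (h : Rep V δ T S) (h' : Rep V δ T' S')
    (h'' : Rep V δ T'' S'') (hT : ∀ x, T'' x = T (T' x)) : ‖S.comp S' - S''‖ ≤ 32 * δ := by
  have h1 := opn hδ hδ1 hV (S.comp S' - S'') (c := 16 * δ) fun ζ hζ => by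
    have h2 := h'.near hδ1 hV hζ
    have h3 := h.near hδ1 hV (h'.ball hζ)
    have h4 := h''.near hδ1 hV hζ
    rw [hT] at h4
    have h5 := h.app_le (S' (V ζ) - V (T' ζ))
    have e : (S.comp S' - S'') (V ζ) = S (S' (V ζ) - V (T' ζ)) +
        (S (V (T' ζ)) - V (T (T' ζ))) - (S'' (V ζ) - V (T (T' ζ))) := by
      rw [_root_.sub_apply, ContinuousLinearMap.comp_apply, map_sub]
      abel
    rw [e]
    have g1 := norm_sub_le (S (S' (V ζ) - V (T' ζ)) +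
        (S (V (T' ζ)) - V (T (T' ζ)))) (S'' (V ζ) - V (T (T' ζ)))
    have g2 := norm_add_le (S (S' (V ζ) - V (T' ζ))) (S (V (T' ζ)) - V (T (T' ζ)))
    linarith
  linarith

/-- the extension of a unitary of `P` -/
def Tu (P : Submodule ℂ H) [FiniteDimensional ℂ P] (w : P ≃ₗᵢ[ℂ] P) : H →L[ℂ] H :=
  P.subtypeL.comp (((w : P ≃L[ℂ] P) : P →L[ℂ] P).comp P.orthogonalProjectionOnto)

lemma Tu_apply (P : Submodule ℂ H) [FiniteDimensional ℂ P] (w : P ≃ₗᵢ[ℂ] P) (x : H) :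
    Tu P w x = (w (P.orthogonalProjectionOnto x) : H) := rfl

lemma Tu_norm (P : Submodule ℂ H) [FiniteDimensional ℂ P] (w : P ≃ₗᵢ[ℂ] P) : ‖Tu P w‖ ≤ 1 := by
  refine ContinuousLinearMap.opNorm_le_bound _ zero_le_one fun x => ?_
  rw [Tu_apply, ← Submodule.coe_norm, LinearIsometryEquiv.norm_map, one_mul]
  exact Submodule.norm_orthogonalProjectionOnto_apply_le P x

lemma proj_coe (P : Submodule ℂ H) [FiniteDimensional ℂ P] (v : P) :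
    P.orthogonalProjectionOnto (v : H) = v :=
  Submodule.orthogonalProjectionOnto_mem_subspace_eq_self v

lemma Tu_coe (P : Submodule ℂ H) [FiniteDimensional ℂ P] (w : P ≃ₗᵢ[ℂ] P) (v : P) :
    Tu P w (v : H) = (w v : H) := by
  rw [Tu_apply, proj_coe]

lemma Tu_mul (P : Submodule ℂ H) [FiniteDimensional ℂ P] (w s : P ≃ₗᵢ[ℂ] P) (x : H) :
    Tu P (s.trans w) x = Tu P w (Tu P s x) := by
  rw [Tu_apply P s, Tu_coe, Tu_apply]
  rfl

lemma Tu_diff (P : Submodule ℂ H) [FiniteDimensional ℂ P] (w s : P ≃ₗᵢ[ℂ] P) {c : ℝ} (hc : 0 ≤ c)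
    (h : ∀ v, ‖w v - s v‖ ≤ c * ‖v‖) : ‖Tu P w - Tu P s‖ ≤ c := by
  refine ContinuousLinearMap.opNorm_le_bound _ hc fun x => ?_
  rw [_root_.sub_apply, Tu_apply, Tu_apply, ← Submodule.coe_sub,
    ← Submodule.coe_norm]
  refine (h _).trans (mul_le_mul_of_nonneg_left ?_ hc)
  exact Submodule.norm_orthogonalProjectionOnto_apply_le P x

/-- transitivity of the unitary group -/
lemma trans_unit {E : Type u} [NormedAddCommGroup E] [InnerProductSpace ℂ E]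
    [FiniteDimensional ℂ E] {x y : E} (hx : ‖x‖ = 1) (hy : ‖y‖ = 1) :
    ∃ w : E ≃ₗᵢ[ℂ] E, w x = y := by
  have hx0 : x ≠ 0 := by
    rintro rfl
    simp at hx
  have : Nontrivial E := ⟨x, 0, hx0⟩
  have hn : 0 < Module.finrank ℂ E := Module.finrank_pos
  obtain ⟨N, hN⟩ : ∃ N, Module.finrank ℂ E = N + 1 := ⟨Module.finrank ℂ E - 1, by omega⟩
  have key : ∀ z : E, ‖z‖ = 1 → ∃ b : OrthonormalBasis (Fin (N + 1)) ℂ E, b 0 = z := by
    intro z hz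
    obtain ⟨b, hb⟩ := Orthonormal.exists_orthonormalBasis_extension_of_card_eq
      (𝕜 := ℂ) (E := E) (ι := Fin (N + 1)) (by rw [hN]; simp) (v := fun _ => z) (s := {0}) (by
        rw [orthonormal_iff_ite]
        rintro ⟨i, hi⟩ ⟨j, hj⟩
        rw [Set.mem_singleton_iff] at hi hj
        subst hi
        subst hj
        simp only [Set.domRestrict_apply, if_true]
        rw [inner_self_c, hz]
        simp)
    exact ⟨b, hb 0 (Set.mem_singleton 0)⟩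
  obtain ⟨b, hb⟩ := key x hx
  obtain ⟨b', hb'⟩ := key y hy
  refine ⟨b.equiv b' (Equiv.refl _), ?_⟩
  rw [← hb, OrthonormalBasis.equiv_apply_basis, Equiv.refl_apply, hb']

/-- the reflection of a unit vector -/
lemma exists_refl {E : Type u} [NormedAddCommGroup E] [InnerProductSpace ℂ E]
    [FiniteDimensional ℂ E] {x : E} (hx : ‖x‖ = 1) :
    ∃ w : E ≃ₗᵢ[ℂ] E, ∀ v, w v = v - (2 * ⟪x, v⟫_ℂ) • x := by
  refine ⟨(ℂ ∙ x)ᗮ.reflection, fun v => ?_⟩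
  rw [Submodule.reflection_orthogonal_apply, Submodule.reflection_apply,
    Submodule.starProjection_unit_singleton ℂ hx, two_smul, mul_smul, two_smul]
  abel

end Pool.Agent.TH124.EIImp

namespace Pool.Agent.TH387.EI

open Pool.Agent.TH124.EIImp

universe u

variable {H K : Type u} [NormedAddCommGroup H] [InnerProductSpace ℂ H] [CompleteSpace H]
  [NormedAddCommGroup K] [InnerProductSpace ℂ K] [CompleteSpace K]

theorem improve (hnet : NetP.{u}) (V : H → K) (δ : ℝ) (hδ : 0 < δ) (hδ1 : δ ≤ 1 / 100000)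
    (hV : NW V δ)
    (P : Submodule ℂ H) [FiniteDimensional ℂ P] (W₀ : P →ₗ[ℂ] K) (h : Good V P W₀ (1 / 8)) :
    ∃ W : P →ₗ[ℂ] K, Good V P W (2000 * δ) := by
  have hδ2 : δ ≤ 1 / 2 := by linarith
  rcases subsingleton_or_nontrivial P with hP | hP
  · refine ⟨0, fun η _ => ?_⟩
    have hη : η = 0 := Subsingleton.elim _ _
    subst hη
    have h1 := test hδ2 hV (k := V 0) (c := δ) fun θ hθ => by
      have := hV.inner θ 0 hθ (by simp)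
      rwa [inner_zero_right, sub_zero] at this
    rw [LinearMap.zero_apply, zero_sub, norm_neg, Submodule.coe_zero]
    linarith
  -- representatives
  have hrep : ∀ w : P ≃ₗᵢ[ℂ] P, ∃ S, Rep V δ (Tu P w) S := by
    intro w
    obtain ⟨S, hS, hS'⟩ := hV.op (Tu P w) (Tu_norm P w)
    exact ⟨S, Tu_norm P w, hS, hS'⟩
  choose θ hθ using hrep
  have hW0 : ∀ v : P, ‖W₀ v‖ ≤ 2 * ‖v‖ := by
    have h1 : ∀ v : P, ‖v‖ ≤ 1 → ‖W₀ v‖ ≤ 2 := by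
      intro v hv
      have h2 := h v hv
      have h3 := norm_V_le hδ hV (η := (v : H)) hv
      have h4 := norm_sub_norm_le (W₀ v) (V v)
      linarith
    intro v
    rcases eq_or_ne v 0 with rfl | hv
    · simp
    have hv0 : 0 < ‖v‖ := norm_pos_iff.2 hv
    have h2 := h1 (((‖v‖⁻¹ : ℝ) : ℂ) • v) (by
      rw [norm_smul, Complex.norm_real, Real.norm_eq_abs, abs_of_pos (inv_pos.2 hv0),
        inv_mul_cancel₀ hv0.ne'])
    rw [map_smul, norm_smul, Complex.norm_real, Real.norm_eq_abs, abs_of_pos (inv_pos.2 hv0),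
      inv_mul_le_iff₀ hv0] at h2
    linarith
  obtain ⟨S, hSne, hS⟩ := hnet P δ hδ
  -- the summands
  set F : (P ≃ₗᵢ[ℂ] P) → P →ₗ[ℂ] K := fun s =>
    ((θ s : K →ₗ[ℂ] K) ∘ₗ W₀) ∘ₗ (s.symm.toLinearEquiv : P →ₗ[ℂ] P) with hF
  have hFa : ∀ s v, F s v = θ s (W₀ (s.symm v)) := fun s v => rfl
  have hcard : (0 : ℝ) < S.card := by exact_mod_cast hSne.card_pos
  set U2 : P →ₗ[ℂ] K := (((S.card : ℝ)⁻¹ : ℝ) : ℂ) • ∑ s ∈ S, F s with hU2
  have hU2a : ∀ v, U2 v = (((S.card : ℝ)⁻¹ : ℝ) : ℂ) • ∑ s ∈ S, F s v := by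
    intro v
    rw [hU2, LinearMap.smul_apply, LinearMap.sum_apply]
  -- averages
  have havg : ∀ (g : (P ≃ₗᵢ[ℂ] P) → K) (c : ℝ), (∀ s ∈ S, ‖g s‖ ≤ c) →
      ‖(((S.card : ℝ)⁻¹ : ℝ) : ℂ) • ∑ s ∈ S, g s‖ ≤ c := by
    intro g c hg
    rw [norm_smul, Complex.norm_real, Real.norm_eq_abs, abs_of_pos (inv_pos.2 hcard),
      inv_mul_le_iff₀ hcard]
    refine (norm_sum_le _ _).trans ?_
    refine (Finset.sum_le_sum hg).trans ?_
    rw [Finset.sum_const, nsmul_eq_mul]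
  -- Lipschitz property of F
  have hFlip : ∀ (w s : P ≃ₗᵢ[ℂ] P), (∀ v, ‖w v - s v‖ ≤ δ * ‖v‖) → ∀ v, ‖v‖ ≤ 1 →
      ‖F w v - F s v‖ ≤ 28 * δ := by
    intro w s hws v hv
    have h1 := (hθ w).diff hδ hδ2 hV (hθ s) (Tu_diff P w s hδ.le hws)
    have e : F w v - F s v = (θ w - θ s) (W₀ (w.symm v)) + θ s (W₀ (w.symm v - s.symm v)) := by
      rw [hFa, hFa, _root_.sub_apply, map_sub, map_sub]
      abel
    have h2 : ‖w.symm v - s.symm v‖ ≤ δ := by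
      have e1 : ‖w.symm v - s.symm v‖ = ‖s (w.symm v) - w (w.symm v)‖ := by
        rw [← s.norm_map (w.symm v - s.symm v), map_sub, LinearIsometryEquiv.apply_symm_apply,
          LinearIsometryEquiv.apply_symm_apply]
      rw [e1, norm_sub_rev]
      refine (hws _).trans ?_
      rw [LinearIsometryEquiv.norm_map]
      nlinarith
    have h3 : ‖W₀ (w.symm v)‖ ≤ 2 := by
      refine (hW0 _).trans ?_
      rw [LinearIsometryEquiv.norm_map]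
      linarith
    have h4 : ‖(θ w - θ s) (W₀ (w.symm v))‖ ≤ 12 * δ * 2 := by
      refine ((θ w - θ s).le_opNorm _).trans (mul_le_mul ?_ h3 (norm_nonneg _) (by positivity))
      linarith
    have h5 : ‖θ s (W₀ (w.symm v - s.symm v))‖ ≤ 4 * δ := by
      refine ((hθ s).app_le _).trans ?_
      have := hW0 (w.symm v - s.symm v)
      linarith
    rw [e]
    refine (norm_add_le _ _).trans ?_
    linarith
  -- almost equivariance
  have hequi : ∀ (w : P ≃ₗᵢ[ℂ] P) (v : P), ‖v‖ ≤ 1 → ‖θ w (U2 v) - U2 (w v)‖ ≤ 138 * δ := by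
    intro w v hv
    obtain ⟨σ, hσ⟩ := hS w
    have e1 : U2 (w v) = (((S.card : ℝ)⁻¹ : ℝ) : ℂ) • ∑ s ∈ S.attach, F (σ s).1 (w v) := by
      rw [hU2a]
      congr 1
      rw [← Finset.sum_attach S (fun s => F s (w v))]
      have : S.attach = (Finset.univ : Finset S) := rfl
      rw [this]
      exact (Equiv.sum_comp σ (fun s : S => F s.1 (w v))).symm
    have e2 : θ w (U2 v) = (((S.card : ℝ)⁻¹ : ℝ) : ℂ) • ∑ s ∈ S.attach, θ w (F s.1 v) := by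
      rw [hU2a, map_smul, map_sum]
      congr 1
      exact (Finset.sum_attach S (fun s => θ w (F s v))).symm
    rw [e1, e2, ← smul_sub, ← Finset.sum_sub_distrib, norm_smul, Complex.norm_real,
      Real.norm_eq_abs, abs_of_pos (inv_pos.2 hcard), inv_mul_le_iff₀ hcard]
    refine (norm_sum_le _ _).trans ?_
    have hterm : ∀ s ∈ S.attach, ‖θ w (F s.1 v) - F (σ s).1 (w v)‖ ≤ 138 * δ := by
      intro s _
      have hv' : ‖w v‖ ≤ 1 := by rwa [LinearIsometryEquiv.norm_map]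
      have h1 := hFlip (s.1.trans w) (σ s).1 (fun x => hσ s x) (w v) hv'
      have h2 := (hθ w).mul hδ hδ2 hV (hθ s.1) (hθ (s.1.trans w)) (Tu_mul P w s.1)
      have e3 : F (s.1.trans w) (w v) = θ (s.1.trans w) (W₀ (s.1.symm v)) := by
        rw [hFa]
        congr 2
        show s.1.symm (w.symm (w v)) = _
        rw [LinearIsometryEquiv.symm_apply_apply]
      have h3 : ‖W₀ (s.1.symm v)‖ ≤ 2 := by
        refine (hW0 _).trans ?_
        rw [LinearIsometryEquiv.norm_map]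
        linarith
      have h4 : ‖((θ w).comp (θ s.1) - θ (s.1.trans w)) (W₀ (s.1.symm v))‖ ≤ 32 * δ * 2 :=
        (ContinuousLinearMap.le_opNorm _ _).trans
          (mul_le_mul h2 h3 (norm_nonneg _) (by positivity))
      have e4 : θ w (F s.1 v) - F (σ s).1 (w v) =
          ((θ w).comp (θ s.1) - θ (s.1.trans w)) (W₀ (s.1.symm v)) +
            (F (s.1.trans w) (w v) - F (σ s).1 (w v)) := by
        rw [e3, _root_.sub_apply, ContinuousLinearMap.comp_apply, hFa s.1 v]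
        abel
      rw [e4]
      refine (norm_add_le _ _).trans ?_
      linarith
    refine (Finset.sum_le_sum hterm).trans ?_
    rw [Finset.sum_const, Finset.card_attach, nsmul_eq_mul]
  -- closeness to V
  have hclose : ∀ v : P, ‖v‖ ≤ 1 → ‖U2 v - V v‖ ≤ 1 / 4 + 4 * δ := by
    intro v hv
    have e1 : U2 v - V v = (((S.card : ℝ)⁻¹ : ℝ) : ℂ) • ∑ s ∈ S, (F s v - V v) := by
      rw [Finset.sum_sub_distrib, smul_sub, ← hU2a, Finset.sum_const, ← Nat.cast_smul_eq_nsmul ℂ,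
        smul_smul]
      have : ((((S.card : ℝ)⁻¹ : ℝ) : ℂ)) * (S.card : ℂ) = 1 := by
        have h0 : (S.card : ℂ) ≠ 0 := by exact_mod_cast hcard.ne'
        push_cast
        exact inv_mul_cancel₀ h0
      rw [this, one_smul]
    rw [e1]
    refine havg _ _ fun s _ => ?_
    have hv' : ‖s.symm v‖ ≤ 1 := by rwa [LinearIsometryEquiv.norm_map]
    have h1 := h (s.symm v) hv'
    have h2 := (hθ s).near hδ2 hV (ζ := (s.symm v : H)) hv'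
    rw [Tu_coe, LinearIsometryEquiv.apply_symm_apply] at h2
    have h3 := (hθ s).app_le (W₀ (s.symm v) - V (s.symm v))
    have e2 : F s v - V v = θ s (W₀ (s.symm v) - V (s.symm v)) +
        (θ s (V (s.symm v)) - V v) := by
      rw [hFa, map_sub]
      abel
    rw [e2]
    refine (norm_add_le _ _).trans ?_
    linarith
  -- a unit vector
  obtain ⟨e0, he0⟩ : ∃ e0 : P, ‖e0‖ = 1 := by
    obtain ⟨x, hx⟩ := exists_ne (0 : P)
    have hx0 : 0 < ‖x‖ := norm_pos_iff.2 hx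
    refine ⟨((‖x‖⁻¹ : ℝ) : ℂ) • x, ?_⟩
    rw [norm_smul, Complex.norm_real, Real.norm_eq_abs, abs_of_pos (inv_pos.2 hx0),
      inv_mul_cancel₀ hx0.ne']
  have he0' : ‖(e0 : H)‖ = 1 := he0
  obtain ⟨s0, hs0⟩ := exists_refl he0
  -- the rank one projection
  set E0 : H →L[ℂ] H := (innerSL ℂ (e0 : H)).smulRight (e0 : H) with hE0
  have hE0a : ∀ x, E0 x = ⟪(e0 : H), x⟫_ℂ • (e0 : H) := fun x => rfl
  have hE0n : ‖E0‖ ≤ 1 := by
    refine ContinuousLinearMap.opNorm_le_bound _ zero_le_one fun x => ?_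
    rw [hE0a, norm_smul, he0', mul_one]
    exact norm_inner_le_norm _ _ |>.trans (by rw [he0'])
  obtain ⟨R, hRn, hRr⟩ := hV.op E0 hE0n
  have hR : Rep V δ E0 R := ⟨hE0n, hRn, hRr⟩
  have hRdiff : ‖R - (1 / 2 : ℂ) • (θ (LinearIsometryEquiv.refl ℂ P) - θ s0)‖ ≤ 8 * δ := by
    have h1 := test2 hδ hδ2 hV (R - (1 / 2 : ℂ) • (θ (LinearIsometryEquiv.refl ℂ P) - θ s0))
      (c := 2 * δ) fun η ζ hη hζ => by
      have g1 := hR.rep η ζ hη hζ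
      have g2 := (hθ (LinearIsometryEquiv.refl ℂ P)).rep η ζ hη hζ
      have g3 := (hθ s0).rep η ζ hη hζ
      have e1 : E0 ζ = (1 / 2 : ℂ) • (Tu P (LinearIsometryEquiv.refl ℂ P) ζ - Tu P s0 ζ) := by
        rw [Tu_apply, Tu_apply, hs0, hE0a]
        have e2 : ⟪e0, P.orthogonalProjectionOnto ζ⟫_ℂ = ⟪(e0 : H), ζ⟫_ℂ := by
          rw [Submodule.coe_inner, Submodule.coe_orthogonalProjectionOnto_apply,
            ← Submodule.inner_starProjection_left_eq_right,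
            Submodule.starProjection_eq_self_iff.2 e0.2]
        rw [e2]
        simp only [LinearIsometryEquiv.coe_refl, id_eq, Submodule.coe_sub, Submodule.coe_smul,
          sub_sub_cancel]
        rw [smul_smul]
        congr 1
        ring
      have e3 : ⟪V η, (R - (1 / 2 : ℂ) • (θ (LinearIsometryEquiv.refl ℂ P) - θ s0)) (V ζ)⟫_ℂ =
          (⟪V η, R (V ζ)⟫_ℂ - ⟪η, E0 ζ⟫_ℂ) -
            (1 / 2 : ℂ) * (⟪V η, θ (LinearIsometryEquiv.refl ℂ P) (V ζ)⟫_ℂ -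
              ⟪η, Tu P (LinearIsometryEquiv.refl ℂ P) ζ⟫_ℂ) +
            (1 / 2 : ℂ) * (⟪V η, θ s0 (V ζ)⟫_ℂ - ⟪η, Tu P s0 ζ⟫_ℂ) := by
        rw [e1, _root_.sub_apply, _root_.smul_apply,
          _root_.sub_apply, inner_sub_right, inner_smul_right, inner_sub_right,
          inner_smul_right, inner_sub_right]
        ring
      rw [e3]
      have g4 : ‖(1 / 2 : ℂ) * (⟪V η, θ (LinearIsometryEquiv.refl ℂ P) (V ζ)⟫_ℂ -
              ⟪η, Tu P (LinearIsometryEquiv.refl ℂ P) ζ⟫_ℂ)‖ ≤ 1 / 2 * δ := by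
        rw [norm_mul]
        have : ‖(1 / 2 : ℂ)‖ = 1 / 2 := by norm_num
        rw [this]
        linarith
      have g5 : ‖(1 / 2 : ℂ) * (⟪V η, θ s0 (V ζ)⟫_ℂ - ⟪η, Tu P s0 ζ⟫_ℂ)‖ ≤ 1 / 2 * δ := by
        rw [norm_mul]
        have : ‖(1 / 2 : ℂ)‖ = 1 / 2 := by norm_num
        rw [this]
        linarith
      refine (norm_add_le _ _).trans ?_
      have g6 := norm_sub_le (⟪V η, R (V ζ)⟫_ℂ - ⟪η, E0 ζ⟫_ℂ)
        ((1 / 2 : ℂ) * (⟪V η, θ (LinearIsometryEquiv.refl ℂ P) (V ζ)⟫_ℂ -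
              ⟪η, Tu P (LinearIsometryEquiv.refl ℂ P) ζ⟫_ℂ))
      linarith
    linarith
  set k := U2 e0 with hk
  have hkn : ‖k‖ ≤ 3 := by
    have h1 := hclose e0 he0.le
    have h2 := norm_V_le hδ hV (η := (e0 : H)) he0'.le
    have h3 := norm_sub_norm_le (U2 e0) (V e0)
    rw [hk]
    linarith
  have hRk : ‖R k - k‖ ≤ 180 * δ := by
    have h1 := hequi (LinearIsometryEquiv.refl ℂ P) e0 he0.le
    have h2 := hequi s0 e0 he0.le
    have e1 : s0 e0 = -e0 := by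
      rw [hs0, inner_self_c, he0]
      simp only [one_pow, Complex.ofReal_one, mul_one]
      rw [two_smul]
      abel
    rw [e1, map_neg, sub_neg_eq_add, ← hk] at h2
    rw [LinearIsometryEquiv.coe_refl, id_eq, ← hk] at h1
    have h3 : ‖(R - (1 / 2 : ℂ) • (θ (LinearIsometryEquiv.refl ℂ P) - θ s0)) k‖ ≤ 8 * δ * 3 :=
      (ContinuousLinearMap.le_opNorm _ _).trans
        (mul_le_mul hRdiff hkn (norm_nonneg _) (by positivity))
    have e2 : R k - k = (R - (1 / 2 : ℂ) • (θ (LinearIsometryEquiv.refl ℂ P) - θ s0)) k +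
        (1 / 2 : ℂ) • ((θ (LinearIsometryEquiv.refl ℂ P) k - k) - (θ s0 k + k)) := by
      rw [_root_.sub_apply, _root_.smul_apply,
        _root_.sub_apply]
      module
    rw [e2]
    refine (norm_add_le _ _).trans ?_
    have h4 : ‖(1 / 2 : ℂ) • ((θ (LinearIsometryEquiv.refl ℂ P) k - k) - (θ s0 k + k))‖ ≤
        1 / 2 * (138 * δ + 138 * δ) := by
      rw [norm_smul]
      have : ‖(1 / 2 : ℂ)‖ = 1 / 2 := by norm_num
      rw [this]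
      refine mul_le_mul_of_nonneg_left ?_ (by norm_num)
      exact (norm_sub_le _ _).trans (add_le_add h1 h2)
    linarith
  -- k is almost a multiple of V e0
  obtain ⟨l, hl⟩ : ∃ l : ℂ, ‖k - l • V e0‖ ≤ 240 * δ := by
    rcases eq_or_ne k 0 with hk0 | hk0
    · refine ⟨0, ?_⟩
      rw [hk0, zero_smul, sub_zero, norm_zero]
      positivity
    have hkp : 0 < ‖k‖ := norm_pos_iff.2 hk0
    set k' : K := ((‖k‖⁻¹ : ℝ) : ℂ) • k with hk'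
    have hn : ‖k'‖ = 1 := by
      rw [hk', norm_smul, Complex.norm_real, Real.norm_eq_abs, abs_of_pos (inv_pos.2 hkp),
        inv_mul_cancel₀ hkp.ne']
    obtain ⟨ζ, hζ, hd⟩ := hV.dense k' hn.le
    have e1 : k = ((‖k‖ : ℝ) : ℂ) • k' := by
      rw [hk', smul_smul, ← Complex.ofReal_mul, mul_inv_cancel₀ hkp.ne', Complex.ofReal_one,
        one_smul]
    have hin : ‖⟪(e0 : H), ζ⟫_ℂ‖ ≤ 1 := by
      refine (norm_inner_le_norm _ _).trans ?_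
      rw [he0', one_mul]
      exact hζ
    have g1 := hR.near hδ2 hV hζ
    rw [hE0a] at g1
    have g2 := lin1 hδ2 hV (η := (e0 : H)) (l := ⟪(e0 : H), ζ⟫_ℂ) he0'.le hin
    have g3 : ‖R k' - ⟪(e0 : H), ζ⟫_ℂ • V e0‖ ≤ 12 * δ := by
      have e2 : R k' - ⟪(e0 : H), ζ⟫_ℂ • V e0 = (R (V ζ) - V (⟪(e0 : H), ζ⟫_ℂ • (e0 : H))) +
          (V (⟪(e0 : H), ζ⟫_ℂ • (e0 : H)) - ⟪(e0 : H), ζ⟫_ℂ • V e0) - R (V ζ - k') := by
        rw [map_sub]
        abel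
      rw [e2]
      have g4 := hR.app_le (V ζ - k')
      have g5 := norm_sub_le ((R (V ζ) - V (⟪(e0 : H), ζ⟫_ℂ • (e0 : H))) +
          (V (⟪(e0 : H), ζ⟫_ℂ • (e0 : H)) - ⟪(e0 : H), ζ⟫_ℂ • V e0)) (R (V ζ - k'))
      have g6 := norm_add_le (R (V ζ) - V (⟪(e0 : H), ζ⟫_ℂ • (e0 : H)))
          (V (⟪(e0 : H), ζ⟫_ℂ • (e0 : H)) - ⟪(e0 : H), ζ⟫_ℂ • V e0)
      linarith
    refine ⟨((‖k‖ : ℝ) : ℂ) * ⟪(e0 : H), ζ⟫_ℂ, ?_⟩
    have e3 : k - (((‖k‖ : ℝ) : ℂ) * ⟪(e0 : H), ζ⟫_ℂ) • V e0 =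
        -(R k - k) + ((‖k‖ : ℝ) : ℂ) • (R k' - ⟪(e0 : H), ζ⟫_ℂ • V e0) := by
      have e4 : R k = ((‖k‖ : ℝ) : ℂ) • R k' := by
        conv_lhs => rw [e1]
        rw [map_smul]
      rw [e4, smul_sub, smul_smul]
      abel
    rw [e3]
    refine (norm_add_le _ _).trans ?_
    rw [norm_neg, norm_smul, Complex.norm_real, Real.norm_eq_abs, abs_of_pos hkp]
    have g7 : ‖k‖ * ‖R k' - ⟪(e0 : H), ζ⟫_ℂ • V e0‖ ≤ 3 * (12 * δ) :=
      mul_le_mul hkn g3 (norm_nonneg _) (by norm_num)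
    linarith
  -- the scalar
  have hVe : (9 : ℝ) / 10 ≤ ‖V e0‖ := by
    have h1 := (abs_le.1 (nsq hV (η := (e0 : H)) he0'.le)).1
    rw [he0'] at h1
    have h2 := norm_nonneg (V e0)
    nlinarith
  have hl1 : ‖l - 1‖ ≤ 3 / 10 := by
    have h1 := hclose e0 he0.le
    rw [← hk] at h1
    have e1 : (l - 1) • V e0 = (k - V e0) - (k - l • V e0) := by
      rw [sub_smul, one_smul]
      abel
    have h2 : ‖(l - 1) • V e0‖ ≤ (1 / 4 + 4 * δ) + 240 * δ := by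
      rw [e1]
      exact (norm_sub_le _ _).trans (add_le_add h1 hl)
    rw [norm_smul] at h2
    have h3 : ‖l - 1‖ * (9 / 10) ≤ ‖l - 1‖ * ‖V e0‖ :=
      mul_le_mul_of_nonneg_left hVe (norm_nonneg _)
    linarith
  have hl2 : (1 : ℝ) / 2 ≤ ‖l‖ := by
    have h1 := norm_sub_norm_le (1 : ℂ) (1 - l)
    rw [sub_sub_cancel, norm_one, norm_sub_rev] at h1
    linarith
  have hl0 : l ≠ 0 := by
    rintro rfl
    rw [norm_zero] at hl2
    linarith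
  have hli : ‖l⁻¹‖ ≤ 2 := by
    rw [norm_inv, inv_le_comm₀ (by linarith) (by norm_num)]
    linarith
  -- the map
  refine ⟨l⁻¹ • U2, ?_⟩
  have hunit : ∀ v : P, ‖v‖ = 1 → ‖(l⁻¹ • U2) v - V v‖ ≤ 1240 * δ := by
    intro v hv
    obtain ⟨w, hw⟩ := trans_unit he0 hv
    have h1 := hequi w e0 he0.le
    rw [hw, ← hk] at h1
    have h2 := (hθ w).near hδ2 hV (ζ := (e0 : H)) he0'.le
    rw [Tu_coe, hw] at h2
    have h3 := (hθ w).app_le (k - l • V e0)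
    have e1 : (l⁻¹ • U2) v - V v = l⁻¹ • (-(θ w k - U2 v)) + l⁻¹ • θ w (k - l • V e0) +
        (θ w (V e0) - V v) := by
      rw [LinearMap.smul_apply, map_sub, map_smul, smul_sub, smul_smul, inv_mul_cancel₀ hl0,
        one_smul, smul_neg, smul_sub]
      abel
    rw [e1]
    have g1 : ‖l⁻¹ • (-(θ w k - U2 v))‖ ≤ 2 * (138 * δ) := by
      rw [norm_smul, norm_neg]
      exact mul_le_mul hli h1 (norm_nonneg _) (by norm_num)
    have g2 : ‖l⁻¹ • θ w (k - l • V e0)‖ ≤ 2 * (2 * (240 * δ)) := by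
      rw [norm_smul]
      refine mul_le_mul hli (h3.trans ?_) (norm_nonneg _) (by norm_num)
      linarith
    have g3 := norm_add_le (l⁻¹ • (-(θ w k - U2 v)) + l⁻¹ • θ w (k - l • V e0))
      (θ w (V e0) - V v)
    have g4 := norm_add_le (l⁻¹ • (-(θ w k - U2 v))) (l⁻¹ • θ w (k - l • V e0))
    linarith
  intro v hv
  rcases eq_or_ne v 0 with rfl | hv0
  · have h1 := lin1 hδ2 hV (η := (0 : H)) (l := 0) (by simp) (by simp)
    rw [smul_zero, zero_smul, sub_zero] at h1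
    rw [map_zero, zero_sub, norm_neg, Submodule.coe_zero]
    linarith
  have hvp : 0 < ‖v‖ := norm_pos_iff.2 hv0
  set v' : P := ((‖v‖⁻¹ : ℝ) : ℂ) • v with hv'
  have hn : ‖v'‖ = 1 := by
    rw [hv', norm_smul, Complex.norm_real, Real.norm_eq_abs, abs_of_pos (inv_pos.2 hvp),
      inv_mul_cancel₀ hvp.ne']
  have e1 : v = ((‖v‖ : ℝ) : ℂ) • v' := by
    rw [hv', smul_smul, ← Complex.ofReal_mul, mul_inv_cancel₀ hvp.ne', Complex.ofReal_one,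
      one_smul]
  have hc : ‖((‖v‖ : ℝ) : ℂ)‖ ≤ 1 := by
    rw [Complex.norm_real, Real.norm_eq_abs, abs_of_pos hvp]
    exact hv
  have h1 := hunit v' hn
  have hn' : ‖(v' : H)‖ ≤ 1 := le_of_eq hn
  have h2 := lin1 hδ2 hV (η := (v' : H)) (l := ((‖v‖ : ℝ) : ℂ)) hn' hc
  have e2 : (l⁻¹ • U2) v - V v = ((‖v‖ : ℝ) : ℂ) • ((l⁻¹ • U2) v' - V v') -
      (V (((‖v‖ : ℝ) : ℂ) • (v' : H)) - ((‖v‖ : ℝ) : ℂ) • V v') := by
    have e3 : (v : H) = ((‖v‖ : ℝ) : ℂ) • (v' : H) := by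
      rw [← Submodule.coe_smul, ← e1]
    have e4 : (l⁻¹ • U2) v = ((‖v‖ : ℝ) : ℂ) • (l⁻¹ • U2) v' := by
      rw [← map_smul, ← e1]
    rw [e4, ← e3, smul_sub]
    abel
  rw [e2]
  refine (norm_sub_le _ _).trans ?_
  have h3 : ‖((‖v‖ : ℝ) : ℂ) • ((l⁻¹ • U2) v' - V v')‖ ≤ 1 * (1240 * δ) := by
    rw [norm_smul]
    exact mul_le_mul hc h1 (norm_nonneg _) zero_le_one
  linarith

end Pool.Agent.TH387.EI
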