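import Pool.Agent.TH981.SD.Stm

/-! Job SD/MED (project of helper981 on MP_0bba14_pr): three marked branches determine the hub. -/

set_option autoImplicit false

open Pool.Agent.TH981.SD
open Finset Set Filter
open scoped BigOperators Topology Classical

namespace Pool.Agent.TH124.J2299

lemma mem_br {n : ℕ} {G : SimpleGraph (Fin n)} {h b v : Fin n} :
    v ∈ br G h b ↔ G.dist v b < G.dist v h := by
  unfold br
  rw [Finset.mem_filter]
  exact ⟨fun h => h.2, fun h => ⟨Finset.mem_univ _, h⟩⟩

/-- unique predecessor -/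
lemma pred (h1 : S_CELL) {n : ℕ} (G : SimpleGraph (Fin n)) (hG : G.IsTree) (v x : Fin n)
    (hvx : v ≠ x) : (∃ b, G.Adj x b ∧ G.dist v b < G.dist v x) ∧
      ∀ b b', G.Adj x b → G.Adj x b' → G.dist v b < G.dist v x → G.dist v b' < G.dist v x →
        b = b' := by
  have hconn : (G.induce (({x} : Finset (Fin n)) : Set (Fin n))).Connected := by
    rw [Finset.coe_singleton]
    have : Nonempty (({x} : Set (Fin n)) : Type) := ⟨⟨x, rfl⟩⟩
    refine { preconnected := ?_, nonempty := this }
    rintro ⟨a, ha⟩ ⟨b, hb⟩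
    have : a = b := by
      rw [Set.mem_singleton_iff] at ha hb
      rw [ha, hb]
    subst this
    rfl
  obtain ⟨hcell, -⟩ := h1 n G {x} hG hconn
  obtain ⟨p, ⟨hp1, hp2, hp3⟩, hpu⟩ := hcell v (by rw [Finset.mem_singleton]; exact hvx)
  rw [Finset.mem_singleton] at hp1
  constructor
  · refine ⟨p.2, ?_, ?_⟩
    · unfold offN at hp2
      rw [Finset.mem_filter, hp1] at hp2
      exact hp2.2.1
    · rw [mem_br, hp1] at hp3
      exact hp3
  · intro b b' hb hb' hd hd'
    have key : ∀ c, G.Adj x c → G.dist v c < G.dist v x → (x, c) = p := by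
      intro c hc hdc
      apply hpu
      refine ⟨Finset.mem_singleton_self _, ?_, mem_br.2 hdc⟩
      unfold offN
      rw [Finset.mem_filter, Finset.mem_singleton]
      exact ⟨Finset.mem_univ _, hc, hc.ne'⟩
    have h2 := key b hb hd
    have h3 := key b' hb' hd'
    exact (Prod.mk.inj (h2.trans h3.symm)).2

/-- distances across an edge -/
lemma far (h1 : S_CELL) {n : ℕ} (G : SimpleGraph (Fin n)) (hG : G.IsTree) (h b : Fin n)
    (hadj : G.Adj h b) (v : Fin n) (hv : G.dist v h < G.dist v b) :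
    ∀ k : ℕ, ∀ h' : Fin n, G.dist h' b = k → G.dist h' b < G.dist h' h →
      G.dist v h' = G.dist v h + G.dist h h' := by
  intro k
  induction k with
  | zero =>
    intro h' hk _
    have he : h' = b := (hG.connected.dist_eq_zero_iff).1 hk
    subst he
    have h2 : G.dist h h' = 1 := SimpleGraph.dist_eq_one_iff_adj.2 hadj
    rcases hG.dist_eq_dist_add_one_of_adj v hadj with h3 | h3 <;> omega
  | succ k ih =>
    intro h' hk hlt
    have hne : b ≠ h' := by
      intro he
      rw [← he, SimpleGraph.dist_self] at hk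
      omega
    obtain ⟨y, hy, hyd⟩ := (pred h1 G hG b h' hne).1
    have hyb : G.dist y b = k := by
      have e1 : G.dist b y = G.dist y b := SimpleGraph.dist_comm
      have e2 : G.dist b h' = G.dist h' b := SimpleGraph.dist_comm
      rcases hG.dist_eq_dist_add_one_of_adj b hy with h3 | h3 <;> omega
    have e0 : G.dist h b = 1 := SimpleGraph.dist_eq_one_iff_adj.2 hadj
    have e1 : G.dist h' h = k + 2 := by
      rcases hG.dist_eq_dist_add_one_of_adj h' hadj with h3 | h3 <;> omega
    have e1' : G.dist h h' = k + 2 := by rw [SimpleGraph.dist_comm, e1]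
    have e2 : G.dist h y ≤ G.dist h b + G.dist b y := hG.connected.dist_triangle
    have e3 : G.dist b y = k := by rw [SimpleGraph.dist_comm, hyb]
    have e4 : G.dist h y = k + 1 := by
      rcases hG.dist_eq_dist_add_one_of_adj h hy with h3 | h3 <;> omega
    have e4' : G.dist y h = k + 1 := by rw [SimpleGraph.dist_comm, e4]
    have e5 := ih y hyb (by omega)
    rcases hG.dist_eq_dist_add_one_of_adj v hy with h3 | h3
    · omega
    · exfalso
      have hhy : h ≠ y := by
        intro he
        rw [he, SimpleGraph.dist_self] at e4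
        omega
      obtain ⟨z, hz, hzd⟩ := (pred h1 G hG h y hhy).1
      have e6 : G.dist v z ≤ G.dist v h + G.dist h z := hG.connected.dist_triangle
      have hvy : v ≠ y := by
        intro he
        rw [he, SimpleGraph.dist_self] at h3
        omega
      have e7 := (pred h1 G hG v y hvy).2 z h' hz hy.symm (by omega) (by omega)
      rw [e7] at hzd
      omega

lemma claim (h1 : S_CELL) {n : ℕ} (G : SimpleGraph (Fin n)) (hG : G.IsTree) (h b h' b' v : Fin n)
    (hadj : G.Adj h b) (hh' : h' ∈ br G h b) (hv : v ∉ br G h b) (hh : h ∈ br G h' b') :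
    v ∈ br G h' b' := by
  rw [mem_br] at *
  have e1 : G.dist v h < G.dist v b := by
    rcases hG.dist_eq_dist_add_one_of_adj v hadj with h3 | h3 <;> omega
  have e2 := far h1 G hG h b hadj v e1 _ h' rfl hh'
  have e3 : G.dist v b' ≤ G.dist v h + G.dist h b' := hG.connected.dist_triangle
  omega

lemma uniq (h1 : S_CELL) {n m : ℕ} (G : SimpleGraph (Fin n)) (hG : G.IsTree) (hm : 3 ≤ m)
    (h h' : Fin n) (e e' : Fin m → Fin n) (he : Function.Injective e)
    (he' : Function.Injective e') (hN : ∀ i, G.Adj h (e i)) (hN' : ∀ i, G.Adj h' (e' i))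
    (x : Fin m → Fin n) (hx : ∀ i, x i ∈ br G h (e i)) (hx' : ∀ i, x i ∈ br G h' (e' i)) :
    h = h' ∧ e = e' := by
  have hne : ∀ (h : Fin n) (e : Fin m → Fin n), (∀ i, x i ∈ br G h (e i)) → ∀ i, x i ≠ h := by
    intro h e hx i hi
    have := hx i
    rw [mem_br, hi, SimpleGraph.dist_self] at this
    omega
  have hhh : h = h' := by
    by_contra hcon
    obtain ⟨b, hb, hbd⟩ := (pred h1 G hG h' h (Ne.symm hcon)).1
    obtain ⟨b', hb', hbd'⟩ := (pred h1 G hG h h' hcon).1
    have key : ∀ i, e i ≠ b → e' i = b' := by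
      intro i hi
      have e1 : x i ∉ br G h b := by
        intro hc
        exact hi ((pred h1 G hG (x i) h (hne h e hx i)).2 (e i) b (hN i) hb (mem_br.1 (hx i))
          (mem_br.1 hc))
      have e2 := claim h1 G hG h b h' b' (x i) hb (mem_br.2 hbd) e1 (mem_br.2 hbd')
      exact (pred h1 G hG (x i) h' (hne h' e' hx' i)).2 (e' i) b' (hN' i) hb' (mem_br.1 (hx' i))
        (mem_br.1 e2)
    have i0 : Fin m := ⟨0, by omega⟩
    obtain ⟨i, j, hij, hi, hj⟩ : ∃ i j : Fin m, i ≠ j ∧ e i ≠ b ∧ e j ≠ b := by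
      by_cases c0 : e ⟨0, by omega⟩ = b
      · refine ⟨⟨1, by omega⟩, ⟨2, by omega⟩, by simp, ?_, ?_⟩
        · intro hc
          have := he (c0.trans hc.symm)
          simp at this
        · intro hc
          have := he (c0.trans hc.symm)
          simp at this
      · by_cases c1 : e ⟨1, by omega⟩ = b
        · refine ⟨⟨0, by omega⟩, ⟨2, by omega⟩, by simp, c0, ?_⟩
          intro hc
          have := he (c1.trans hc.symm)
          simp at this
        · exact ⟨⟨0, by omega⟩, ⟨1, by omega⟩, by simp, c0, c1⟩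
    exact hij (he' ((key i hi).trans (key j hj).symm))
  subst hhh
  refine ⟨rfl, ?_⟩
  funext i
  exact (pred h1 G hG (x i) h (hne h e hx i)).2 (e i) (e' i) (hN i) (hN' i) (mem_br.1 (hx i))
    (mem_br.1 (hx' i))

theorem med (h1 : S_CELL) : S_MED := by
  intro α n m G hα0 hα1 hG hm
  obtain ⟨w, hw⟩ : ∃ w : Fin n → ℝ, w = fun v => lam α (dg G v) := ⟨_, rfl⟩
  have hw0 : ∀ v, 0 ≤ w v := by
    intro v
    rw [hw]
    exact Real.rpow_nonneg (Nat.cast_nonneg _) _
  have hne : Nonempty (Fin n) := hG.connected.nonempty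
  -- enumeration of the sets
  have hex : ∀ S : Finset (Fin n), ∃ e : Fin m → Fin n, S.card = m →
      Function.Injective e ∧ Finset.univ.image e = S := by
    intro S
    by_cases hS : S.card = m
    · refine ⟨fun i => S.orderEmbOfFin hS i, fun _ => ⟨(S.orderEmbOfFin hS).injective, ?_⟩⟩
      ext y
      rw [Finset.mem_image]
      constructor
      · rintro ⟨i, -, rfl⟩
        exact Finset.orderEmbOfFin_mem S hS i
      · intro hy
        have : y ∈ Set.range (S.orderEmbOfFin hS) := by
          rw [Finset.range_orderEmbOfFin]; exact hy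
        obtain ⟨i, hi⟩ := this
        exact ⟨i, Finset.mem_univ _, hi⟩
    · exact ⟨fun _ => hne.some, fun h => absurd h hS⟩
  choose e he using hex
  -- the tuples
  obtain ⟨A, hA⟩ : ∃ A : (Σ _ : Fin n, Finset (Fin n)) → Finset (Fin m → Fin n),
      ∀ q, A q = Fintype.piFinset (fun i => br G q.1 (e q.2 i)) := ⟨_, fun _ => rfl⟩
  have hprod : ∀ h : Fin n, ∀ S ∈ Finset.powersetCard m (offN G ∅ h),
      ∏ b ∈ S, (∑ v ∈ br G h b, lam α (dg G v)) = ∑ x ∈ A ⟨h, S⟩, ∏ i, w (x i) := by
    intro h S hS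
    rw [Finset.mem_powersetCard] at hS
    obtain ⟨hinj, himg⟩ := he S hS.2
    rw [hA]
    have e1 : ∏ b ∈ S, (∑ v ∈ br G h b, lam α (dg G v)) =
        ∏ i : Fin m, (∑ v ∈ br G h (e S i), w v) := by
      conv_lhs => rw [← himg]
      rw [Finset.prod_image (fun a _ b _ hab => hinj hab), hw]
    rw [e1, Finset.prod_univ_sum]
  have htot : totW α G ^ m = ∑ x : Fin m → Fin n, ∏ i, w (x i) := by
    have e1 : totW α G = ∑ v, w v := by rw [hw]; rfl
    rw [e1, ← Fintype.piFinset_univ, ← Finset.prod_univ_sum, Finset.prod_const, Finset.card_univ,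
      Fintype.card_fin]
  have hsum : ∑ h, ∑ S ∈ Finset.powersetCard m (offN G ∅ h),
      ∏ b ∈ S, (∑ v ∈ br G h b, lam α (dg G v)) =
      ∑ q ∈ (Finset.univ : Finset (Fin n)).sigma (fun h => Finset.powersetCard m (offN G ∅ h)),
        ∑ x ∈ A q, ∏ i, w (x i) := by
    rw [Finset.sum_sigma]
    refine Finset.sum_congr rfl fun h _ => Finset.sum_congr rfl fun S hS => ?_
    exact hprod h S hS
  have hfacts : ∀ q ∈ (Finset.univ : Finset (Fin n)).sigma
      (fun h => Finset.powersetCard m (offN G ∅ h)),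
      Function.Injective (e q.2) ∧ Finset.univ.image (e q.2) = q.2 ∧
      ∀ i, G.Adj q.1 (e q.2 i) := by
    intro q hq
    rw [Finset.mem_sigma, Finset.mem_powersetCard] at hq
    obtain ⟨hinj, himg⟩ := he q.2 hq.2.2
    refine ⟨hinj, himg, fun i => ?_⟩
    have h3 : e q.2 i ∈ q.2 := by
      have : e q.2 i ∈ Finset.univ.image (e q.2) := Finset.mem_image_of_mem _ (Finset.mem_univ _)
      rw [himg] at this
      exact this
    have h4 := hq.2.1 h3
    unfold offN at h4
    rw [Finset.mem_filter] at h4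
    exact h4.2.1
  rw [hsum, htot, ← Finset.sum_biUnion]
  · refine Finset.sum_le_sum_of_subset_of_nonneg (Finset.subset_univ _) fun x _ _ => ?_
    exact Finset.prod_nonneg fun i _ => hw0 _
  · intro q hq q' hq' hqq
    rw [Function.onFun, Finset.disjoint_left]
    intro x hx hx'
    apply hqq
    obtain ⟨a1, a2, a3⟩ := hfacts q hq
    obtain ⟨b1, b2, b3⟩ := hfacts q' hq'
    rw [hA, Fintype.mem_piFinset] at hx hx'
    obtain ⟨c1, c2⟩ := uniq h1 G hG hm q.1 q'.1 (e q.2) (e q'.2) a1 b1 a3 b3 x hx hx'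
    have c3 : q.2 = q'.2 := by rw [← a2, ← b2, c2]
    exact Sigma.ext c1 (heq_of_eq c3)

end Pool.Agent.TH124.J2299
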